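import Mathlib
import Pool.Agent.H3.Frg4.Defs4

set_option autoImplicit false

/-!
# THEOREM QL, chapter (6): the game (definitions)

`Liar cl dg K`: a commutative ring `R` of polynomials with a degree filtration `dg` and a class map
`cl : R → H` into an inner product space, such that multiplication by polynomials is symmetric in
degrees `≤ K`. `Sml cl dg k η r`: multiplication by `r` has norm at most `η` on degree `k`.
`DT α`: decision trees with questions in `α`; a history is the list of the answers, the newest answer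
first. `pr V O h`: product of the factors of all answers of `h`, without the positions in `O` (the
position of `x` in `x :: h` is `h.length`). `LS V O T h`: sum of `‖cl (pr V O ·)‖²` over the leaves
of `T` below the history `h`.
-/

namespace Pool.Agent.H81.QG

open Finset Classical Pool.Agent.H3.Frg Pool.Agent.H3.Frg2 Pool.Agent.H3.Frg4

section liar

variable {R H α : Type} [CommRing R] [Algebra ℝ R] [NormedAddCommGroup H] [InnerProductSpace ℝ H]

/-- Polynomials acting by symmetric operators on vectors of low degree. -/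
structure Liar (cl : R →ₗ[ℝ] H) (dg : ℕ → Submodule ℝ R) (K : ℕ) : Prop where
  mono : Monotone dg
  one : (1 : R) ∈ dg 0
  mul : ∀ i j p q, p ∈ dg i → q ∈ dg j → p * q ∈ dg (i + j)
  nrm : ‖cl 1‖ = 1
  sym : ∀ i j k p q r, p ∈ dg i → q ∈ dg j → r ∈ dg k → i + j ≤ K → i + k ≤ K →
    inner ℝ (cl (p * q)) (cl r) = inner ℝ (cl q) (cl (p * r))

/-- Multiplication by `r` has norm at most `η` on degree `k`. -/
def Sml (cl : R →ₗ[ℝ] H) (dg : ℕ → Submodule ℝ R) (k : ℕ) (η : ℝ) (r : R) : Prop :=
  ∀ p ∈ dg k, ‖cl (r * p)‖ ≤ η * ‖cl p‖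

/-- Decision trees: question, subtree for the answer false, subtree for the answer true. -/
inductive DT (α : Type) : Type
  | leaf : DT α
  | node : α → DT α → DT α → DT α

/-- Depth of a decision tree. -/
def DT.depth : DT α → ℕ
  | .leaf => 0
  | .node _ t0 t1 => max t0.depth t1.depth + 1

/-- All leaves of the tree below the history `h` have the property `Q`. -/
def DT.All (Q : List (α × Bool) → Prop) : DT α → List (α × Bool) → Prop
  | .leaf, h => Q h
  | .node a t0 t1, h => t0.All Q ((a, false) :: h) ∧ t1.All Q ((a, true) :: h)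

/-- The factor of an answer. -/
def fac (V : α → R) (x : α × Bool) : R := if x.2 = true then V x.1 else 1 - V x.1

/-- Product of the factors, without the positions in `O`. -/
noncomputable def pr (V : α → R) (O : Finset ℕ) : List (α × Bool) → R
  | [] => 1
  | x :: h => if h.length ∈ O then pr V O h else fac V x * pr V O h

/-- Sum over the leaves. -/
noncomputable def LS (cl : R →ₗ[ℝ] H) (V : α → R) (O : Finset ℕ) :
    DT α → List (α × Bool) → ℝ
  | .leaf, h => ‖cl (pr V O h)‖ ^ 2
  | .node a t0 t1, h => LS cl V O t0 ((a, false) :: h) + LS cl V O t1 ((a, true) :: h)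

/-- A contradiction between at most three answers. -/
def Bad (cl : R →ₗ[ℝ] H) (dg : ℕ → Submodule ℝ R) (V : α → R) (k : ℕ) (η : ℝ)
    (h : List (α × Bool)) : Prop :=
  ∃ c : Finset (α × Bool), c.card ≤ 3 ∧ (∀ x ∈ c, x ∈ h) ∧ Sml cl dg k η (∏ x ∈ c, fac V x)

/-- Syntactic contradictions: a false axiom, a formula both true and false, a wrong inference. -/
def Bd (ax : Set α) (rule : α → α → α → Prop) (h : List (α × Bool)) : Prop :=
  (∃ a ∈ ax, (a, false) ∈ h) ∨ (∃ a, (a, true) ∈ h ∧ (a, false) ∈ h) ∨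
    ∃ a b c, rule a b c ∧ (a, true) ∈ h ∧ (b, true) ∈ h ∧ (c, false) ∈ h

/-- Trees with leaves in `ax` and `n` applications of the rule. -/
inductive TT (ax : Set α) (rule : α → α → α → Prop) : α → ℕ → Prop
  | ax (a : α) : a ∈ ax → TT ax rule a 0
  | mp (a b c : α) (m n : ℕ) : TT ax rule a m → TT ax rule b n → rule a b c →
      TT ax rule c (m + n + 1)

/-- Trees with leaves in `ax` of height at most `h`. -/
inductive HT (ax : Set α) (rule : α → α → α → Prop) : α → ℕ → Prop
  | ax (a : α) (h : ℕ) : a ∈ ax → HT ax rule a h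
  | mp (a b c : α) (h : ℕ) : HT ax rule a h → HT ax rule b h → rule a b c → HT ax rule c (h + 1)

end liar

section frege

variable {ι : Type}

/-- `TD Sch Γ s N A`: the formula `A` has a tree-like derivation from `Γ` with `N` lines, all with at
most `s` occurrences of variables, with the axiom schemes `Sch` and modus ponens. -/
inductive TD (Sch : Set (Fm ℕ)) (Γ : Set (Fm ι)) (s : ℕ) : ℕ → Fm ι → Prop
  | hyp (A : Fm ι) : A ∈ Γ → A.leaves ≤ s → TD Sch Γ s 1 A
  | inst (ψ : Fm ℕ) (σ : ℕ → Fm ι) : ψ ∈ Sch → (ψ.bind σ).leaves ≤ s → TD Sch Γ s 1 (ψ.bind σ)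
  | mp (A B : Fm ι) (m n : ℕ) : TD Sch Γ s m A → TD Sch Γ s n (A.imp B) → B.leaves ≤ s →
      TD Sch Γ s (m + n + 1) B

/-- `HD Sch Γ s h A`: the formula `A` has a derivation from `Γ` of height at most `h`, with lines with
at most `s` occurrences of variables, with the axiom schemes `Sch` and modus ponens. -/
inductive HD (Sch : Set (Fm ℕ)) (Γ : Set (Fm ι)) (s : ℕ) : ℕ → Fm ι → Prop
  | hyp (h : ℕ) (A : Fm ι) : A ∈ Γ → A.leaves ≤ s → HD Sch Γ s h A
  | inst (h : ℕ) (ψ : Fm ℕ) (σ : ℕ → Fm ι) : ψ ∈ Sch → (ψ.bind σ).leaves ≤ s →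
      HD Sch Γ s h (ψ.bind σ)
  | mp (h : ℕ) (A B : Fm ι) : HD Sch Γ s h A → HD Sch Γ s h (A.imp B) → B.leaves ≤ s →
      HD Sch Γ s (h + 1) B

variable {R H : Type} [CommRing R] [Algebra ℝ R] [NormedAddCommGroup H] [InnerProductSpace ℝ H]

/-- The value of a formula in a commutative ring. -/
def ev {κ : Type} (v : κ → R) : Fm κ → R
  | .var i => v i
  | .neg A => 1 - ev v A
  | .imp A B => 1 - ev v A + ev v A * ev v B

/-- Approximate valuation of the formulas with at most `s` occurrences of variables. -/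
structure VI (cl : R →ₗ[ℝ] H) (dg : ℕ → Submodule ℝ R) (V : Fm ι → R) (y : ι → R)
    (W s k : ℕ) (η : ℝ) : Prop where
  deg : ∀ F, F.leaves ≤ s → V F ∈ dg W
  degy : ∀ i, y i ∈ dg 1
  idy : ∀ i, y i * y i = y i
  idem : ∀ F, F.leaves ≤ s → Sml cl dg k η (V F * V F - V F)
  var : ∀ i, Sml cl dg k η (V (.var i) - y i)
  neg : ∀ F, F.leaves ≤ s → Sml cl dg k η (V (.neg F) - (1 - V F))
  imp : ∀ A B, (A.imp B).leaves ≤ s → Sml cl dg k η (V (.imp A B) - (1 - V A + V A * V B))

end frege

end Pool.Agent.H81.QG
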