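import Mathlib
import Pool.Agent.H81.QG.Defs

set_option autoImplicit false

/-!
# [H81 QG NRM] Calculus of small elements

All proofs are short.
* `Sml.mono`: `hL.mono`, `mul_le_mul_of_nonneg_right`.
* `Sml.add`, `Sml.sub`, `Sml.neg`: `add_mul`, `map_add`, `norm_add_le`; `Sml.zero`, `Sml.one`.
* `Sml.nsmul`-like sums: `Sml.sum`: `Finset.sum_mul`, `map_sum`, `norm_sum_le`, `Finset.sum_le_sum`.
* `Sml.mulb` (multiplication by a bounded element `m`): `m * r * p = r * (m * p)`,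
  `m * p ∈ dg (j + k') ≤ dg k`, so `‖cl (r * (m * p))‖ ≤ η * ‖cl (m * p)‖ ≤ η * (M * ‖cl p‖)`.
* `Sml.prod`: product of two bounded elements, the same argument.
* `vsum`: `‖cl (v p)‖² + ‖cl ((1-v) p)‖² = ‖cl p‖² - 2 ⟪cl (v p), cl ((1-v) p)⟫` because
  `cl (v p) + cl ((1-v) p) = cl p` (`norm_add_sq_real`), and by `hL.sym` (with `p := v` of degree `W`,
  `q := p` of degree `k`, `r := (1-v) p` of degree `W + k`)
  `⟪cl (v p), cl ((1-v) p)⟫ = ⟪cl p, cl (v ((1-v) p))⟫`, `v ((1-v) p) = -((v*v - v) * p)`, and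
  `|⟪a, b⟫| ≤ ‖a‖ ‖b‖` (`abs_real_inner_le_norm`) with `h`.
* `vbd`: from `vsum`: `‖cl (v p)‖² ≤ (1 + 2η) ‖cl p‖² ≤ (1+η)² ‖cl p‖²` (`abs_le_of_sq_le`, `pow_le_pow_left`).
-/

namespace Pool.Agent.H81.QG

open Finset

variable {R H : Type} [CommRing R] [Algebra ℝ R] [NormedAddCommGroup H] [InnerProductSpace ℝ H]
variable {cl : R →ₗ[ℝ] H} {dg : ℕ → Submodule ℝ R} {K : ℕ}

theorem Sml.mono (hL : Liar cl dg K) {k k' : ℕ} {η η' : ℝ} {r : R} (h : Sml cl dg k η r)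
    (hk : k' ≤ k) (hη : η ≤ η') : Sml cl dg k' η' r := fun p hp =>
  (h p (hL.mono hk hp)).trans (mul_le_mul_of_nonneg_right hη (norm_nonneg _))

theorem Sml.zero {k : ℕ} {η : ℝ} (hη : 0 ≤ η) : Sml cl dg k η (0 : R) := by
  intro p _
  rw [zero_mul, map_zero, norm_zero]
  exact mul_nonneg hη (norm_nonneg _)

theorem Sml.one' {k : ℕ} {η : ℝ} (hη : 1 ≤ η) : Sml cl dg k η (1 : R) := by
  intro p _
  rw [one_mul]
  exact le_mul_of_one_le_left (norm_nonneg _) hη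

theorem Sml.neg {k : ℕ} {η : ℝ} {r : R} (h : Sml cl dg k η r) : Sml cl dg k η (-r) := by
  intro p hp
  rw [neg_mul, map_neg, norm_neg]
  exact h p hp

theorem Sml.add {k : ℕ} {η η' : ℝ} {r r' : R} (h : Sml cl dg k η r) (h' : Sml cl dg k η' r') :
    Sml cl dg k (η + η') (r + r') := by
  intro p hp
  rw [add_mul, map_add, add_mul]
  exact (norm_add_le _ _).trans (add_le_add (h p hp) (h' p hp))

theorem Sml.sub {k : ℕ} {η η' : ℝ} {r r' : R} (h : Sml cl dg k η r) (h' : Sml cl dg k η' r') :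
    Sml cl dg k (η + η') (r - r') := by
  rw [sub_eq_add_neg]
  exact h.add h'.neg

theorem Sml.sum {β : Type} {k : ℕ} {η : β → ℝ} {r : β → R} (s : Finset β)
    (h : ∀ b ∈ s, Sml cl dg k (η b) (r b)) : Sml cl dg k (∑ b ∈ s, η b) (∑ b ∈ s, r b) := by
  intro p hp
  rw [Finset.sum_mul, map_sum, Finset.sum_mul]
  exact (norm_sum_le _ _).trans (Finset.sum_le_sum fun b hb => h b hb p hp)

/-- A small element times a bounded element is small. -/
theorem Sml.mulb (hL : Liar cl dg K) {k k' j : ℕ} {η M : ℝ} {r m : R} (h : Sml cl dg k η r)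
    (hη : 0 ≤ η) (hm : m ∈ dg j) (hb : Sml cl dg k' M m) (hk : k' + j ≤ k) :
    Sml cl dg k' (η * M) (m * r) := by
  intro p hp
  have e : m * r * p = r * (m * p) := by ring
  have h1 : m * p ∈ dg k := hL.mono (by omega) (hL.mul j k' m p hm hp)
  rw [e, mul_assoc]
  exact (h _ h1).trans (mul_le_mul_of_nonneg_left (hb p hp) hη)

/-- The two answers nearly resolve the identity. -/
theorem vsum (hL : Liar cl dg K) {k W : ℕ} {η : ℝ} {v : R} (hv : v ∈ dg W)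
    (h : Sml cl dg k η (v * v - v)) (hk : k + 2 * W ≤ K) {p : R} (hp : p ∈ dg k) :
    |‖cl (v * p)‖ ^ 2 + ‖cl ((1 - v) * p)‖ ^ 2 - ‖cl p‖ ^ 2| ≤ 2 * η * ‖cl p‖ ^ 2 := by
  have h1 : (1 - v) ∈ dg W := sub_mem (hL.mono (Nat.zero_le W) hL.one) hv
  have h2 : (1 - v) * p ∈ dg (W + k) := hL.mul W k _ p h1 hp
  have h3 : inner ℝ (cl (v * p)) (cl ((1 - v) * p)) = inner ℝ (cl p) (cl (v * ((1 - v) * p))) :=
    hL.sym W k (W + k) v p _ hv hp h2 (by omega) (by omega)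
  have h4 : v * ((1 - v) * p) = -((v * v - v) * p) := by ring
  have h5 : cl (v * p) + cl ((1 - v) * p) = cl p := by
    rw [← map_add]
    congr 1
    ring
  have h6 := norm_add_sq_real (cl (v * p)) (cl ((1 - v) * p))
  rw [h5, h3, h4, map_neg, inner_neg_right] at h6
  have h7 := abs_real_inner_le_norm (cl p) (cl ((v * v - v) * p))
  have h8 : ‖cl p‖ * ‖cl ((v * v - v) * p)‖ ≤ ‖cl p‖ * (η * ‖cl p‖) :=
    mul_le_mul_of_nonneg_left (h p hp) (norm_nonneg _)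
  have h9 : ‖cl (v * p)‖ ^ 2 + ‖cl ((1 - v) * p)‖ ^ 2 - ‖cl p‖ ^ 2 =
      2 * inner ℝ (cl p) (cl ((v * v - v) * p)) := by
    rw [h6]
    ring
  rw [h9, abs_mul, abs_of_pos (by norm_num : (0 : ℝ) < 2)]
  nlinarith

theorem vbd (hL : Liar cl dg K) {k W : ℕ} {η : ℝ} {v : R} (hv : v ∈ dg W) (hη : 0 ≤ η)
    (h : Sml cl dg k η (v * v - v)) (hk : k + 2 * W ≤ K) :
    Sml cl dg k (1 + η) v ∧ Sml cl dg k (1 + η) (1 - v) := by
  have key : ∀ a b c : ℝ, 0 ≤ a → 0 ≤ b → 0 ≤ c → |a ^ 2 + b ^ 2 - c ^ 2| ≤ 2 * η * c ^ 2 →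
      a ≤ (1 + η) * c := by
    intro a b c ha hb hc h1
    have h2 := (abs_le.1 h1).2
    have h3 : a ^ 2 ≤ ((1 + η) * c) ^ 2 := by
      have h4 : ((1 + η) * c) ^ 2 = c ^ 2 + 2 * η * c ^ 2 + η ^ 2 * c ^ 2 := by ring
      have h5 : 0 ≤ η ^ 2 * c ^ 2 := by positivity
      have h6 : 0 ≤ b ^ 2 := sq_nonneg b
      rw [h4]
      linarith
    exact (pow_le_pow_iff_left₀ ha (by positivity) two_ne_zero).1 h3
  refine ⟨fun p hp => ?_, fun p hp => ?_⟩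
  · exact key _ _ _ (norm_nonneg _) (norm_nonneg _) (norm_nonneg _) (vsum hL hv h hk hp)
  · have h1 := vsum hL hv h hk hp
    rw [add_comm] at h1
    exact key _ _ _ (norm_nonneg _) (norm_nonneg _) (norm_nonneg _) h1

end Pool.Agent.H81.QG
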