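import Mathlib
import Pool.Agent.H81.QG.Nrm

set_option autoImplicit false

/-!
# [H81 QG CHAIN] The chain argument (total size)

`l i` = value of the line `i`, `c i` = value of the conjunction of the lines `0, .., i`. `e := η`.
By `vbd`: `l i`, `1 - l i`, `c i`, `1 - c i` are bounded by `1 + η ≤ 2` on degree `k ≥ 8 W`.
`Sml.mula` (first `r`, then the bounded `m`): `m * r * p = m * (r * p)`, `r * p ∈ dg (j + k')`.
All claims are on degree `4 W`, all hypotheses on degree `k ≥ 8 W`.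
(1) for `a ≤ i < n`: `Sml (4W) (8 (i+1) (1+η)^i η) (c i * (1 - l a))`. Induction on `i`.
 `i = a = 0`: `c 0 (1 - l 0) = (c 0 - l 0)(1 - l 0) - (l 0 l 0 - l 0)`: `2η + η`.
 `a ≤ i`: `c' (1 - l a) = c' * (c i (1 - l a)) + (1 - l a) * (c' (1 - c i))` with `c' = c (i+1)`; first term:
 `Sml.mula` with the bound `1 + η`; `c' (1 - c i) = (c' - c i l')(1 - c i) - l' (c i c i - c i)`: `4η`
 (`l' = l (i+1)`), the second term is `8η`. `a = i + 1`: `c' (1 - l') = (c' - c i l')(1 - l') -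
 c i (l' l' - l')`: `4η`. As `(1+η)^n ≤ 2` (`(1+η)^n ≤ exp(nη)`, or `(1+η)^n (1-nη) ≤ 1`), the
 constant is at most `e1 := 16 n η`.
(2) for `i + 1 < n`: `Sml (4W) (99 n η) (c i - c (i+1))`: it is
 `c i (1 - l') - (c' - c i l')`, and `c i (1 - l')` is `2η` if `1 - l'` is small; otherwise (`a, b ≤ i`)
 `c i (1 - l') = c i * (l a l b (1 - l')) + (1 - l') * (c i (1 - l a)) + ((1 - l') l a) * (c i (1 - l b))`:
 `2η + 2 e1 + 4 e1`.
(3) `1 - c 0 = (1 - l 0) - (c 0 - l 0)`: `2η` (`rule 0`: there is no `a < 0`); sum: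
 `Sml (4W) (101 n² η) (1 - c (n-1))` (`Finset.sum_range_sub` or induction).
(4) with `a, b` of `fin`, `c = c (n-1)`: `c = c * (l a l b) + c (1 - l a) + l a * (c (1 - l b))`:
 `2η + 3 e1 ≤ 50 n η`.
(5) `1 = ‖cl (1 * 1)‖ ≤ ‖cl ((1 - c) * 1)‖ + ‖cl (c * 1)‖ ≤ 151 n² η < 1`. (`1 ∈ dg 0 ≤ dg (4W)`.)
-/

namespace Pool.Agent.H81.QG

open Finset

variable {R H : Type} [CommRing R] [Algebra ℝ R] [NormedAddCommGroup H] [InnerProductSpace ℝ H]
variable {cl : R →ₗ[ℝ] H} {dg : ℕ → Submodule ℝ R} {K : ℕ}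

private theorem pw_aux {η : ℝ} (hη : 0 ≤ η) (i : ℕ) : (1 + η) ^ i * (1 - i * η) ≤ 1 := by
  induction i with
  | zero => simp
  | succ i ih =>
    push_cast
    have h2 : (1 + η) ^ (i + 1) * (1 - ((i : ℝ) + 1) * η) =
        (1 + η) ^ i * (1 - i * η) - (1 + η) ^ i * (i * η ^ 2 + η ^ 2) := by ring
    have h3 : 0 ≤ (1 + η) ^ i * (i * η ^ 2 + η ^ 2) := by positivity
    rw [h2]
    linarith

private theorem pw_two {η : ℝ} (hη : 0 ≤ η) {n i : ℕ} (hi : i ≤ n) (h : (n : ℝ) * η ≤ 1 / 1000) :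
    (1 + η) ^ i ≤ 2 := by
  have h1 := pw_aux hη i
  have h2 : (i : ℝ) ≤ n := by exact_mod_cast hi
  have h3 : (i : ℝ) * η ≤ 1 / 2 := by
    have := mul_le_mul_of_nonneg_right h2 hη
    linarith
  have h4 : (0 : ℝ) ≤ (1 + η) ^ i := by positivity
  nlinarith

/-- A bounded element times a small element is small. -/
theorem Sml.mula (hL : Liar cl dg K) {k k' j : ℕ} {η M : ℝ} {r m : R} (h : Sml cl dg k' η r)
    (hr : r ∈ dg j) (hM : 0 ≤ M) (hb : Sml cl dg k M m) (hk : k' + j ≤ k) :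
    Sml cl dg k' (M * η) (m * r) := by
  intro p hp
  have h1 : r * p ∈ dg k := hL.mono (by omega) (hL.mul j k' r p hr hp)
  have e : m * r * p = m * (r * p) := by ring
  rw [e]
  calc ‖cl (m * (r * p))‖ ≤ M * ‖cl (r * p)‖ := hb _ h1
    _ ≤ M * (η * ‖cl p‖) := mul_le_mul_of_nonneg_left (h p hp) hM
    _ = M * η * ‖cl p‖ := by ring

theorem chain (hL : Liar cl dg K) {n W k : ℕ} {η : ℝ} {l c : ℕ → R} (hn : 0 < n)
    (hl : ∀ i < n, l i ∈ dg W) (hc : ∀ i < n, c i ∈ dg W)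
    (il : ∀ i < n, Sml cl dg k η (l i * l i - l i))
    (ic : ∀ i < n, Sml cl dg k η (c i * c i - c i))
    (c0 : Sml cl dg k η (c 0 - l 0))
    (cs : ∀ i, i + 1 < n → Sml cl dg k η (c (i + 1) - c i * l (i + 1)))
    (rule : ∀ i < n, Sml cl dg k η (1 - l i) ∨
      ∃ a b, a < i ∧ b < i ∧ Sml cl dg k η (l a * l b * (1 - l i)))
    (fin : ∃ a b, a < n ∧ b < n ∧ Sml cl dg k η (l a * l b))
    (hk : 8 * W ≤ k) (hK : k + 2 * W ≤ K) (hη : 0 ≤ η) (hη2 : 1000 * (n : ℝ) ^ 2 * η ≤ 1) :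
    False := by
  have hn1 : (1 : ℝ) ≤ n := by exact_mod_cast hn
  have hnn : (n : ℝ) ≤ n ^ 2 := by nlinarith
  have hnη : (n : ℝ) * η ≤ 1 / 1000 := by
    have := mul_le_mul_of_nonneg_right hnn hη
    linarith
  have hη1 : η ≤ n * η := le_mul_of_one_le_left hη hn1
  have hηs : η ≤ 1 / 1000 := hη1.trans hnη
  have hp1 : 0 ≤ 1 + η := by linarith
  have hp2 : 1 + η ≤ 2 := by linarith
  have d1 : (1 : R) ∈ dg W := hL.mono (Nat.zero_le W) hL.one
  have bl : ∀ i < n, Sml cl dg k (1 + η) (l i) ∧ Sml cl dg k (1 + η) (1 - l i) := fun i hi =>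
    vbd hL (hl i hi) hη (il i hi) hK
  have bc : ∀ i < n, Sml cl dg k (1 + η) (c i) ∧ Sml cl dg k (1 + η) (1 - c i) := fun i hi =>
    vbd hL (hc i hi) hη (ic i hi) hK
  have dl : ∀ i < n, 1 - l i ∈ dg W := fun i hi => sub_mem d1 (hl i hi)
  have dc : ∀ i < n, 1 - c i ∈ dg W := fun i hi => sub_mem d1 (hc i hi)
  have mb : ∀ {r m : R}, Sml cl dg k η r → m ∈ dg W → Sml cl dg k (1 + η) m →
      Sml cl dg (4 * W) (2 * η) (m * r) := by
    intro r m h1 h2 h3
    refine (Sml.mulb hL h1 hη h2 (h3.mono hL (by omega) le_rfl) (by omega : 4 * W + W ≤ k)).mono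
      hL le_rfl ?_
    nlinarith
  have up : ∀ {r : R}, Sml cl dg k η r → Sml cl dg (4 * W) η r := fun h1 =>
    h1.mono hL (by omega) le_rfl
  have d2 : ∀ {p q : R}, p ∈ dg W → q ∈ dg W → p * q ∈ dg (2 * W) := by
    intro p q h1 h2
    have := hL.mul W W p q h1 h2
    rwa [← two_mul] at this
  have ma : ∀ {r m : R} {e : ℝ}, Sml cl dg (4 * W) e r → r ∈ dg (2 * W) → Sml cl dg k (1 + η) m →
      Sml cl dg (4 * W) ((1 + η) * e) (m * r) := by
    intro r m e h1 h2 h3
    exact Sml.mula hL h1 h2 hp1 h3 (by omega : 4 * W + 2 * W ≤ k)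
  -- step (1)
  have s1 : ∀ i, i < n → ∀ a, a ≤ i →
      Sml cl dg (4 * W) (8 * ((i : ℝ) + 1) * (1 + η) ^ i * η) (c i * (1 - l a)) := by
    intro i
    induction i with
    | zero =>
      intro h0 a ha
      obtain rfl : a = 0 := by omega
      have e : c 0 * (1 - l 0) = (1 - l 0) * (c 0 - l 0) - (l 0 * l 0 - l 0) := by ring
      rw [e]
      refine ((mb c0 (dl 0 h0) (bl 0 h0).2).sub (up (il 0 h0))).mono hL le_rfl ?_
      push_cast
      linarith
    | succ i ih =>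
      intro hi a ha
      have hi0 : i < n := by omega
      have h1le : (1 : ℝ) ≤ (1 + η) ^ (i + 1) := one_le_pow₀ (by linarith)
      rcases Nat.lt_or_ge i a with h | h
      · obtain rfl : a = i + 1 := by omega
        have e : c (i + 1) * (1 - l (i + 1)) = (1 - l (i + 1)) * (c (i + 1) - c i * l (i + 1)) -
            c i * (l (i + 1) * l (i + 1) - l (i + 1)) := by ring
        rw [e]
        refine ((mb (cs i hi) (dl _ hi) (bl _ hi).2).sub
          (mb (il _ hi) (hc i hi0) (bc i hi0).1)).mono hL le_rfl ?_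
        push_cast
        have h3 : (1 : ℝ) ≤ ((i : ℝ) + 1 + 1) * (1 + η) ^ (i + 1) := by
          have : (0 : ℝ) ≤ i := Nat.cast_nonneg i
          nlinarith
        have h4 := mul_le_mul_of_nonneg_right h3 hη
        linarith
      · have h2 := ih hi0 a h
        have e : c (i + 1) * (1 - l a) = c (i + 1) * (c i * (1 - l a)) +
            (1 - l a) * ((1 - c i) * (c (i + 1) - c i * l (i + 1)) -
              l (i + 1) * (c i * c i - c i)) := by ring
        rw [e]
        have ha' : a < n := by omega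
        have e2 : (1 - c i) * (c (i + 1) - c i * l (i + 1)) - l (i + 1) * (c i * c i - c i) =
            c (i + 1) * (1 - c i) := by ring
        have t1 : Sml cl dg (4 * W) (2 * η + 2 * η) ((1 - c i) * (c (i + 1) - c i * l (i + 1)) -
            l (i + 1) * (c i * c i - c i)) :=
          (mb (cs i hi) (dc i hi0) (bc i hi0).2).sub (mb (ic i hi0) (hl _ hi) (bl _ hi).1)
        have t2 := ma t1 (by rw [e2]; exact d2 (hc _ hi) (dc i hi0)) (bl a ha').2
        have t3 := ma h2 (d2 (hc i hi0) (dl a ha')) (bc _ hi).1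
        refine (t3.add t2).mono hL le_rfl ?_
        push_cast
        have h5 : (1 + η) * (8 * ((i : ℝ) + 1) * (1 + η) ^ i * η) =
            8 * ((i : ℝ) + 1) * (1 + η) ^ (i + 1) * η := by ring
        have h6 : (1 + η) * (2 * η + 2 * η) ≤ 8 * η := by nlinarith
        have h7 : 8 * η ≤ 8 * (1 + η) ^ (i + 1) * η := by nlinarith
        rw [h5]
        linarith
  have s1' : ∀ i, i < n → ∀ a, a ≤ i → Sml cl dg (4 * W) (16 * n * η) (c i * (1 - l a)) := by
    intro i hi a ha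
    refine (s1 i hi a ha).mono hL le_rfl ?_
    have h1 := pw_two hη hi.le hnη
    have h2 : (i : ℝ) + 1 ≤ n := by exact_mod_cast hi
    have h3 : (0 : ℝ) ≤ (i : ℝ) + 1 := by positivity
    have h4 : ((i : ℝ) + 1) * (1 + η) ^ i ≤ n * 2 :=
      mul_le_mul h2 h1 (by positivity) (by positivity)
    have h5 := mul_le_mul_of_nonneg_right h4 hη
    linarith
  -- step (2)
  have s2 : ∀ i, i + 1 < n → Sml cl dg (4 * W) (99 * n * η) (c i - c (i + 1)) := by
    intro i hi
    have hi0 : i < n := by omega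
    have e : c i - c (i + 1) = c i * (1 - l (i + 1)) - (c (i + 1) - c i * l (i + 1)) := by ring
    rw [e]
    rcases rule (i + 1) hi with h | ⟨a, b, ha, hb, h⟩
    · refine ((mb h (hc i hi0) (bc i hi0).1).sub (up (cs i hi))).mono hL le_rfl ?_
      linarith
    · have ha' : a < n := by omega
      have hb' : b < n := by omega
      have e2 : c i * (1 - l (i + 1)) = c i * (l a * l b * (1 - l (i + 1))) +
          (1 - l (i + 1)) * (c i * (1 - l a)) +
          (1 - l (i + 1)) * (l a * (c i * (1 - l b))) := by ring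
      rw [e2]
      have t1 := mb h (hc i hi0) (bc i hi0).1
      have t2 := ma (s1' i hi0 a (by omega)) (d2 (hc i hi0) (dl a ha')) (bl _ hi).2
      have t3 := ma (s1' i hi0 b (by omega)) (d2 (hc i hi0) (dl b hb')) (bl a ha').1
      have d3 : l a * (c i * (1 - l b)) ∈ dg (W + 2 * W) :=
        hL.mul W (2 * W) _ _ (hl a ha') (d2 (hc i hi0) (dl b hb'))
      have t4 := Sml.mula hL t3 d3 hp1 (bl _ hi).2 (by omega : 4 * W + (W + 2 * W) ≤ k)
      refine (((t1.add t2).add t4).sub (up (cs i hi))).mono hL le_rfl ?_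
      have q0 : 0 ≤ 16 * (n : ℝ) * η := by positivity
      have q1 : (1 + η) * (16 * (n : ℝ) * η) ≤ 2 * (16 * n * η) :=
        mul_le_mul_of_nonneg_right hp2 q0
      have q2 : (1 + η) * ((1 + η) * (16 * (n : ℝ) * η)) ≤ 2 * (2 * (16 * n * η)) :=
        mul_le_mul hp2 q1 (by positivity) (by norm_num)
      linarith
  -- step (3)
  have s3 : ∀ j, j < n → Sml cl dg (4 * W) (2 * η + j * (99 * n * η)) (1 - c j) := by
    intro j
    induction j with
    | zero =>
      intro h0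
      have e : 1 - c 0 = (1 - l 0) - (c 0 - l 0) := by ring
      rw [e]
      rcases rule 0 h0 with h | ⟨a, b, ha, -, -⟩
      · refine ((up h).sub (up c0)).mono hL le_rfl ?_
        push_cast
        linarith
      · omega
    | succ j ih =>
      intro hj
      have e : 1 - c (j + 1) = (1 - c j) + (c j - c (j + 1)) := by ring
      rw [e]
      refine ((ih (by omega)).add (s2 j hj)).mono hL le_rfl ?_
      push_cast
      linarith
  obtain ⟨N, rfl⟩ : ∃ N, n = N + 1 := ⟨n - 1, by omega⟩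
  have hN : N < N + 1 := by omega
  -- step (4)
  obtain ⟨a, b, ha, hb, h⟩ := fin
  have s4 : Sml cl dg (4 * W) (50 * ((N + 1 : ℕ) : ℝ) * η) (c N) := by
    have e : c N = c N * (l a * l b) + c N * (1 - l a) + l a * (c N * (1 - l b)) := by ring
    rw [e]
    have t1 := mb h (hc N hN) (bc N hN).1
    have t2 := s1' N hN a (by omega)
    have t3 := ma (s1' N hN b (by omega)) (d2 (hc N hN) (dl b hb)) (bl a ha).1
    refine ((t1.add t2).add t3).mono hL le_rfl ?_
    have q0 : 0 ≤ 16 * ((N + 1 : ℕ) : ℝ) * η := by positivity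
    have q1 : (1 + η) * (16 * ((N + 1 : ℕ) : ℝ) * η) ≤ 2 * (16 * ((N + 1 : ℕ) : ℝ) * η) :=
      mul_le_mul_of_nonneg_right hp2 q0
    linarith
  -- step (5)
  have d4 : (1 : R) ∈ dg (4 * W) := hL.mono (Nat.zero_le _) hL.one
  have u1 := s3 N hN 1 d4
  have u2 := s4 1 d4
  rw [hL.nrm, mul_one, mul_one] at u1 u2
  have u3 : (1 : ℝ) ≤ ‖cl (1 - c N)‖ + ‖cl (c N)‖ := by
    have e : cl 1 = cl (1 - c N) + cl (c N) := by
      rw [← map_add]
      congr 1
      ring
    rw [← hL.nrm, e]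
    exact norm_add_le _ _
  have u4 : (N : ℝ) * (99 * ((N + 1 : ℕ) : ℝ) * η) ≤ 99 * ((N + 1 : ℕ) : ℝ) ^ 2 * η := by
    have v1 : (N : ℝ) ≤ ((N + 1 : ℕ) : ℝ) := by
      push_cast
      linarith
    have v2 := mul_le_mul_of_nonneg_right v1
      (by positivity : (0 : ℝ) ≤ 99 * ((N + 1 : ℕ) : ℝ) * η)
    refine v2.trans (le_of_eq ?_)
    ring
  have u5 : ((N + 1 : ℕ) : ℝ) * η ≤ ((N + 1 : ℕ) : ℝ) ^ 2 * η :=
    mul_le_mul_of_nonneg_right hnn hη
  linarith

end Pool.Agent.H81.QG
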