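import Mathlib
import Pool.Agent.H3.Frg2.Defs
import Pool.Agent.H81.QG.Nrm

set_option autoImplicit false

/-!
# [H81 QG EVU] Approximate homomorphisms and the exact value of a formula

* `ev_mem`: induction; `1 ∈ dg 0`, `hL.mul`, `hL.mono` (`len (imp A B) = len A + len B + 1`).
* `ev_bd`: `Sml k' (4 ^ len) (ev v F)` if `k' + len W ≤ k`: variable: `2 ≤ 4`; `neg`: `1 + 4^a ≤ 4^(a+1)`;
  `imp`: `1 - a + b * a`, the product by `Sml.mulb` with `m = ev v B` (degree `len B W`, bound `4^b`)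
  and `r = ev v A` (on degree `k' + len B W`, bound `4^a`); `1 + 4^a + 4^(a+b) ≤ 4^(a+b+1)`.
* `evU`: error `8 ^ len η`. `neg`: `(U (neg A) - (1 - U A)) - (U A - ev A)`. `imp`:
  `U (imp A B) - (1 - a + a b) = (U (imp A B) - (1 - U A + U A * U B)) - (U A - a) +
   U A * (U B - b) + b * (U A - a)` with `a = ev v A`, `b = ev v B`; bounds `η + 8^a η + 2 * 8^b η +
   4^b 8^a η ≤ 8^(a+b+1) η`, by `Sml.mulb` with `m = U A` (degree `W ≤ len A W`, as `1 ≤ len`), resp.
  `m = ev v B` (`ev_bd`, degree `len B W`).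
-/

namespace Pool.Agent.H81.QG

open Finset Pool.Agent.H3.Frg Pool.Agent.H3.Frg2

variable {R H : Type} [CommRing R] [Algebra ℝ R] [NormedAddCommGroup H] [InnerProductSpace ℝ H]
variable {cl : R →ₗ[ℝ] H} {dg : ℕ → Submodule ℝ R} {K : ℕ} {κ : Type}

private theorem evu_len (F : Fm κ) : 1 ≤ F.len := by
  induction F with
  | var i => exact le_rfl
  | neg A ih =>
    change 1 ≤ A.len + 1
    omega
  | imp A B ihA ihB =>
    change 1 ≤ A.len + B.len + 1
    omega

theorem ev_mem (hL : Liar cl dg K) {v : κ → R} {W : ℕ} (hv : ∀ i, v i ∈ dg W) (F : Fm κ) :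
    ev v F ∈ dg (F.len * W) := by
  induction F with
  | var i =>
    change v i ∈ dg (1 * W)
    rw [one_mul]
    exact hv i
  | neg A ih =>
    change 1 - ev v A ∈ dg ((A.len + 1) * W)
    exact sub_mem (hL.mono (Nat.zero_le _) hL.one) (hL.mono (by nlinarith) ih)
  | imp A B ihA ihB =>
    change 1 - ev v A + ev v A * ev v B ∈ dg ((A.len + B.len + 1) * W)
    refine add_mem (sub_mem (hL.mono (Nat.zero_le _) hL.one) (hL.mono (by nlinarith) ihA)) ?_
    exact hL.mono (by nlinarith) (hL.mul _ _ _ _ ihA ihB)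

theorem ev_bd (hL : Liar cl dg K) {v : κ → R} {W k : ℕ} (hv : ∀ i, v i ∈ dg W)
    (hb : ∀ i, Sml cl dg k 2 (v i)) (F : Fm κ) {k' : ℕ} (hk : k' + F.len * W ≤ k) :
    Sml cl dg k' (4 ^ F.len) (ev v F) := by
  induction F generalizing k' with
  | var i =>
    change Sml cl dg k' (4 ^ 1) (v i)
    exact (hb i).mono hL (by omega) (by norm_num)
  | neg A ih =>
    change Sml cl dg k' (4 ^ (A.len + 1)) (1 - ev v A)
    have hk1 : k' + (A.len + 1) * W ≤ k := hk
    have h1 := (Sml.one' (cl := cl) (dg := dg) (k := k') le_rfl).sub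
      (ih (k' := k') (by nlinarith))
    refine h1.mono hL le_rfl ?_
    have h2 : (1 : ℝ) ≤ 4 ^ A.len := one_le_pow₀ (by norm_num)
    rw [pow_succ]
    linarith
  | imp A B ihA ihB =>
    change Sml cl dg k' (4 ^ (A.len + B.len + 1)) (1 - ev v A + ev v A * ev v B)
    have hk1 : k' + (A.len + B.len + 1) * W ≤ k := hk
    have h0 : (A.len + B.len + 1) * W = A.len * W + B.len * W + W := by ring
    rw [h0] at hk1
    have h1 := ihA (k' := k') (by omega)
    have h1' := ihA (k' := k' + B.len * W) (by omega)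
    have h2 := ihB (k' := k') (by omega)
    have h3 := h1'.mulb hL (by positivity) (ev_mem hL hv B) h2 le_rfl
    rw [mul_comm (ev v B)] at h3
    have h4 := ((Sml.one' (cl := cl) (dg := dg) (k := k') le_rfl).sub h1).add h3
    refine h4.mono hL le_rfl ?_
    have e1 : (1 : ℝ) ≤ 4 ^ A.len := one_le_pow₀ (by norm_num)
    have e2 : (1 : ℝ) ≤ 4 ^ B.len := one_le_pow₀ (by norm_num)
    rw [pow_succ, pow_add]
    nlinarith

theorem evU (hL : Liar cl dg K) {v : κ → R} {W k : ℕ} {η : ℝ} (hη : 0 ≤ η)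
    (hv : ∀ i, v i ∈ dg W) (hb : ∀ i, Sml cl dg k 2 (v i)) {U : Fm κ → R} {ok : Fm κ → Prop}
    (okn : ∀ A, ok (.neg A) → ok A) (oki : ∀ A B, ok (.imp A B) → ok A ∧ ok B)
    (hU : ∀ F, ok F → U F ∈ dg W ∧ Sml cl dg k 2 (U F))
    (hvar : ∀ i, ok (.var i) → Sml cl dg k η (U (.var i) - v i))
    (hneg : ∀ A, ok (.neg A) → Sml cl dg k η (U (.neg A) - (1 - U A)))
    (himp : ∀ A B, ok (.imp A B) → Sml cl dg k η (U (.imp A B) - (1 - U A + U A * U B)))
    (F : Fm κ) (hF : ok F) {k' : ℕ} (hk : k' + F.len * W ≤ k) :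
    Sml cl dg k' (8 ^ F.len * η) (U F - ev v F) := by
  induction F generalizing k' with
  | var i =>
    change Sml cl dg k' (8 ^ 1 * η) (U (.var i) - v i)
    exact (hvar i hF).mono hL (by omega) (by linarith)
  | neg A ih =>
    change Sml cl dg k' (8 ^ (A.len + 1) * η) (U (.neg A) - (1 - ev v A))
    have hk1 : k' + (A.len + 1) * W ≤ k := hk
    have h0 : (A.len + 1) * W = A.len * W + W := by ring
    rw [h0] at hk1
    have h1 := (hneg A hF).mono hL (show k' ≤ k by omega) le_rfl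
    have h2 := ih (okn A hF) (k' := k') (by omega)
    have h3 := h1.sub h2
    have e : U (.neg A) - (1 - ev v A) = U (.neg A) - (1 - U A) - (U A - ev v A) := by ring
    rw [e]
    refine h3.mono hL le_rfl ?_
    have e1 : (1 : ℝ) ≤ 8 ^ A.len := one_le_pow₀ (by norm_num)
    rw [pow_succ]
    nlinarith
  | imp A B ihA ihB =>
    change Sml cl dg k' (8 ^ (A.len + B.len + 1) * η)
      (U (.imp A B) - (1 - ev v A + ev v A * ev v B))
    have hk1 : k' + (A.len + B.len + 1) * W ≤ k := hk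
    have h0 : (A.len + B.len + 1) * W = A.len * W + B.len * W + W := by ring
    rw [h0] at hk1
    obtain ⟨okA, okB⟩ := oki A B hF
    have h1 := (himp A B hF).mono hL (show k' ≤ k by omega) le_rfl
    have h2 := ihA okA (k' := k') (by omega)
    -- U A * (U B - b)
    have h3 := (ihB okB (k' := k' + W) (by omega)).mulb hL (by positivity) (hU A okA).1
      ((hU A okA).2.mono hL (show k' ≤ k by omega) le_rfl) le_rfl
    -- b * (U A - a)
    have h4 := (ihA okA (k' := k' + B.len * W) (by omega)).mulb hL (by positivity)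
      (ev_mem hL hv B) (ev_bd hL hv hb B (k' := k') (by omega)) le_rfl
    have h5 := ((h1.sub h2).add h3).add h4
    have e : U (.imp A B) - (1 - ev v A + ev v A * ev v B) =
        U (.imp A B) - (1 - U A + U A * U B) - (U A - ev v A) + U A * (U B - ev v B) +
          ev v B * (U A - ev v A) := by ring
    rw [e]
    refine h5.mono hL le_rfl ?_
    have e1 : (1 : ℝ) ≤ 8 ^ A.len := one_le_pow₀ (by norm_num)
    have e2 : (1 : ℝ) ≤ 8 ^ B.len := one_le_pow₀ (by norm_num)
    have e3 : (4 : ℝ) ^ B.len ≤ 8 ^ B.len := pow_le_pow_left₀ (by norm_num) (by norm_num) _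
    have e4 : (0 : ℝ) ≤ 4 ^ B.len := by positivity
    have e5 : η + 8 ^ A.len * η + 8 ^ B.len * η * 2 + 8 ^ A.len * η * 4 ^ B.len =
        (1 + 8 ^ A.len + 8 ^ B.len * 2 + 8 ^ A.len * 4 ^ B.len) * η := by ring
    have e6 : (1 : ℝ) + 8 ^ A.len + 8 ^ B.len * 2 + 8 ^ A.len * 4 ^ B.len ≤
        8 ^ (A.len + B.len + 1) := by
      rw [pow_succ, pow_add]
      have e7 : (8 : ℝ) ^ A.len * 4 ^ B.len ≤ 8 ^ A.len * 8 ^ B.len :=
        mul_le_mul_of_nonneg_left e3 (by linarith)
      have e8 : (8 : ℝ) ^ A.len ≤ 8 ^ A.len * 8 ^ B.len := le_mul_of_one_le_right (by linarith) e2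
      have e9 : (8 : ℝ) ^ B.len ≤ 8 ^ A.len * 8 ^ B.len := le_mul_of_one_le_left (by linarith) e1
      linarith
    rw [e5]
    exact mul_le_mul_of_nonneg_right e6 hη

end Pool.Agent.H81.QG
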