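import Mathlib
import Pool.Agent.H81.QG.EvU

set_option autoImplicit false

/-!
# [H81 QG TAUT] Tautologies of approximate idempotents

`v i` are approximate idempotents of degree `W`, `F` is a tautology; then `ev v F ~ 1`.
Let `S` be the (finite) set of the variables of `F` (define it here, privately; `S.card ≤ F.len`), and
for `τ : κ → Bool` (or `τ ∈ S.powerset`) `m τ = ∏ i ∈ S, (if τ i then v i else 1 - v i)`: degree
`S.card * W`, bound `2 ^ S.card` on degree `k'` if `k' + S.card W ≤ k` (`Sml.mulb`, induction).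
(1) for all `G` with variables in `S`: `Sml k' (8 ^ len G * 2 ^ S.card * η) ((ev v G - [G τ]) * m τ)`
 if `k' + (len G + S.card) W ≤ k`. `[G τ] = if G.eval τ then 1 else 0`. Induction on `G`.
 Variable `i ∈ S`: `m τ = x * rest` with `x = v i` or `1 - v i` (`Finset.mul_prod_erase`), and
 `(v i - 1) * v i = v i * v i - v i`, `v i * (1 - v i) = -(v i * v i - v i)`: `Sml.mulb` with `m = rest`.
 `neg`: `(1 - a) - (1 - α) = -(a - α)`. `imp`: `1 - a + a b - (1 - α + α β) = -(a - α) + a (b - β) +
 β (a - α)`, `Sml.mulb` with `m = ev v A` (`ev_bd`): `2 * 8^a + 4^a 8^b ≤ 8^(a+b+1)`.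
(2) `1 = ∏ i ∈ S, (v i + (1 - v i)) = ∑ τ ∈ S.powerset, m τ` (`Finset.prod_add`), so
 `1 - ev v F = -∑ (ev v F - 1) m τ`: `Sml.sum`, `2^S.card * 2^S.card * 8^len ≤ 64^len`.
-/

namespace Pool.Agent.H81.QG

open Finset Pool.Agent.H3.Frg Pool.Agent.H3.Frg2

variable {R H : Type} [CommRing R] [Algebra ℝ R] [NormedAddCommGroup H] [InnerProductSpace ℝ H]
variable {cl : R →ₗ[ℝ] H} {dg : ℕ → Submodule ℝ R} {K : ℕ} {κ : Type}

open Classical in
/-- the variables of a formula -/
private noncomputable def tvs : Fm κ → Finset κ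
  | .var i => {i}
  | .neg A => tvs A
  | .imp A B => tvs A ∪ tvs B

private theorem tvs_card (F : Fm κ) : (tvs F).card ≤ F.len := by
  classical
  induction F with
  | var i => exact (Finset.card_singleton i).le
  | neg A ih => exact ih.trans (Nat.le_succ _)
  | imp A B ihA ihB =>
    have h1 : (tvs (Fm.imp A B)).card ≤ (tvs A).card + (tvs B).card := by
      simp only [tvs]
      exact Finset.card_union_le _ _
    have h3 : (Fm.imp A B).len = A.len + B.len + 1 := rfl
    omega

/-- the factor of a variable for the assignment `T` -/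
private noncomputable def tfa (v : κ → R) (T : Set κ) (i : κ) : R :=
  open Classical in if i ∈ T then v i else 1 - v i

/-- the truth value of a formula for the assignment `T`, as an element of the ring -/
private noncomputable def tev (T : Set κ) (G : Fm κ) : R :=
  open Classical in if G.eval (fun i => decide (i ∈ T)) = true then 1 else 0

private theorem tfa_mem (hL : Liar cl dg K) {v : κ → R} {W : ℕ} (hv : ∀ i, v i ∈ dg W)
    (T : Set κ) (i : κ) : tfa v T i ∈ dg W := by
  unfold tfa
  split_ifs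
  · exact hv i
  · exact sub_mem (hL.mono (Nat.zero_le W) hL.one) (hv i)

private theorem tfa_bd {v : κ → R} {k : ℕ} (hb : ∀ i, Sml cl dg k 2 (v i))
    (hb' : ∀ i, Sml cl dg k 2 (1 - v i)) (T : Set κ) (i : κ) : Sml cl dg k 2 (tfa v T i) := by
  unfold tfa
  split_ifs
  · exact hb i
  · exact hb' i

private theorem tprod_mem (hL : Liar cl dg K) {v : κ → R} {W : ℕ} (hv : ∀ i, v i ∈ dg W)
    (T : Set κ) (S : Finset κ) : ∏ i ∈ S, tfa v T i ∈ dg (S.card * W) := by
  classical
  induction S using Finset.induction_on with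
  | empty =>
    rw [Finset.prod_empty, Finset.card_empty, Nat.zero_mul]
    exact hL.one
  | insert a S ha ih =>
    rw [Finset.prod_insert ha, Finset.card_insert_of_notMem ha, Nat.add_mul, Nat.one_mul,
      Nat.add_comm]
    exact hL.mul _ _ _ _ (tfa_mem hL hv T a) ih

private theorem tprod_bd (hL : Liar cl dg K) {v : κ → R} {W k : ℕ} (hv : ∀ i, v i ∈ dg W)
    (hb : ∀ i, Sml cl dg k 2 (v i)) (hb' : ∀ i, Sml cl dg k 2 (1 - v i))
    (T : Set κ) (S : Finset κ) {k' : ℕ} (hk : k' + S.card * W ≤ k) :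
    Sml cl dg k' (2 ^ S.card) (∏ i ∈ S, tfa v T i) := by
  classical
  induction S using Finset.induction_on with
  | empty =>
    rw [Finset.prod_empty, Finset.card_empty, pow_zero]
    exact Sml.one' le_rfl
  | insert a S ha ih =>
    rw [Finset.card_insert_of_notMem ha, Nat.add_mul, Nat.one_mul] at hk
    rw [Finset.prod_insert ha, Finset.card_insert_of_notMem ha, mul_comm, pow_succ, mul_comm _ (2 : ℝ)]
    exact Sml.mulb hL (tfa_bd hb hb' T a) (by norm_num) (tprod_mem hL hv T S)
      (ih (by omega)) (by omega)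

private theorem tone (x : R) {β : ℝ} (hβ : 0 ≤ β) {k : ℕ} (T : Set κ) (G : Fm κ)
    (h : Sml cl dg k β x) : Sml cl dg k β ((tev T G : R) * x) := by
  unfold tev
  split_ifs
  · rw [one_mul]
    exact h
  · rw [zero_mul]
    exact Sml.zero hβ

private theorem tmain (hL : Liar cl dg K) {v : κ → R} {W k : ℕ} {η : ℝ} (hη : 0 ≤ η)
    (hv : ∀ i, v i ∈ dg W) (hb : ∀ i, Sml cl dg k 2 (v i)) (hb' : ∀ i, Sml cl dg k 2 (1 - v i))
    (hi : ∀ i, Sml cl dg k η (v i * v i - v i)) (T : Set κ) (S : Finset κ) (G : Fm κ)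
    (hG : tvs G ⊆ S) {k' : ℕ} (hk : k' + (G.len + S.card) * W ≤ k) :
    Sml cl dg k' (8 ^ G.len * 2 ^ S.card * η) ((ev v G - tev T G) * ∏ i ∈ S, tfa v T i) := by
  classical
  induction G generalizing k' with
  | var i =>
    have hiS : i ∈ S := hG (Finset.mem_singleton_self i)
    have h1 := Finset.mul_prod_erase S (tfa v T) hiS
    have hc : (S.erase i).card = S.card - 1 := Finset.card_erase_of_mem hiS
    have hc1 : 1 ≤ S.card := Finset.card_pos.2 ⟨i, hiS⟩
    have hk' : k' + (1 + S.card) * W ≤ k := hk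
    have hle : (S.erase i).card * W ≤ (1 + S.card) * W := Nat.mul_le_mul_right W (by omega)
    have h2 : Sml cl dg k' (η * 2 ^ (S.erase i).card)
        ((∏ j ∈ S.erase i, tfa v T j) * (v i * v i - v i)) :=
      Sml.mulb hL (hi i) hη (tprod_mem hL hv T _) (tprod_bd hL hv hb hb' T _ (by omega))
        (by omega)
    have h3 : Sml cl dg k' (8 ^ (Fm.var i).len * 2 ^ S.card * η)
        ((∏ j ∈ S.erase i, tfa v T j) * (v i * v i - v i)) := by
      refine h2.mono hL le_rfl ?_
      have h4 : (2 : ℝ) ^ (S.erase i).card ≤ 2 ^ S.card :=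
        pow_le_pow_right₀ (by norm_num) (by omega)
      have h5 : (8 : ℝ) ^ (Fm.var i : Fm κ).len = 8 := pow_one 8
      rw [h5]
      have h6 : 0 ≤ (2 : ℝ) ^ S.card * η := by positivity
      nlinarith
    by_cases hiT : i ∈ T
    · have e : (ev v (Fm.var i) - tev T (Fm.var i)) * ∏ j ∈ S, tfa v T j =
          (∏ j ∈ S.erase i, tfa v T j) * (v i * v i - v i) := by
        have h4 : (tev T (Fm.var i) : R) = 1 := by
          unfold tev
          rw [if_pos]
          exact decide_eq_true hiT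
        have h5 : tfa v T i = v i := by
          unfold tfa
          rw [if_pos hiT]
        rw [← h1, h4, h5]
        change (v i - 1) * _ = _
        ring
      rw [e]
      exact h3
    · have e : (ev v (Fm.var i) - tev T (Fm.var i)) * ∏ j ∈ S, tfa v T j =
          -((∏ j ∈ S.erase i, tfa v T j) * (v i * v i - v i)) := by
        have h4 : (tev T (Fm.var i) : R) = 0 := by
          unfold tev
          rw [if_neg]
          intro h
          exact hiT (of_decide_eq_true h)
        have h5 : tfa v T i = 1 - v i := by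
          unfold tfa
          rw [if_neg hiT]
        rw [← h1, h4, h5]
        change (v i - 0) * _ = _
        ring
      rw [e]
      exact h3.neg
  | neg A ih =>
    have hlen : (Fm.neg A).len = A.len + 1 := rfl
    have hk2 : k' + (A.len + S.card) * W ≤ k := by
      rw [hlen] at hk
      have : (A.len + S.card) * W ≤ (A.len + 1 + S.card) * W := Nat.mul_le_mul_right W (by omega)
      omega
    have h1 := ih hG hk2
    have h4 : (tev T (Fm.neg A) : R) = 1 - tev T A := by
      unfold tev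
      have h5 : (Fm.neg A).eval (fun i => decide (i ∈ T)) =
        !(A.eval (fun i => decide (i ∈ T))) := rfl
      rw [h5]
      cases A.eval (fun i => decide (i ∈ T)) <;> simp
    have e : (ev v (Fm.neg A) - tev T (Fm.neg A)) * ∏ j ∈ S, tfa v T j =
        -((ev v A - tev T A) * ∏ j ∈ S, tfa v T j) := by
      rw [h4]
      change (1 - ev v A - _) * _ = _
      ring
    rw [e]
    refine h1.neg.mono hL le_rfl ?_
    rw [hlen, pow_succ]
    have h6 : 0 ≤ (8 : ℝ) ^ A.len * 2 ^ S.card * η := by positivity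
    nlinarith
  | imp A B ihA ihB =>
    have hlen : (Fm.imp A B).len = A.len + B.len + 1 := rfl
    rw [hlen] at hk
    have e1 : (A.len + B.len + 1 + S.card) * W =
        A.len * W + (B.len + S.card) * W + W := by ring
    have e2 : (A.len + S.card) * W + B.len * W + W = (A.len + B.len + 1 + S.card) * W := by ring
    have hA' : tvs A ⊆ S := fun x hx => hG (by
      simp only [tvs]
      exact Finset.mem_union_left _ hx)
    have hB' : tvs B ⊆ S := fun x hx => hG (by
      simp only [tvs]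
      exact Finset.mem_union_right _ hx)
    have h1 := ihA hA' (k' := k') (by omega)
    have h2 := ihB hB' (k' := k' + A.len * W) (by omega)
    have h3 : Sml cl dg k' (8 ^ B.len * 2 ^ S.card * η * 4 ^ A.len)
        (ev v A * ((ev v B - tev T B) * ∏ j ∈ S, tfa v T j)) :=
      Sml.mulb hL h2 (by positivity) (ev_mem hL hv A) (ev_bd hL hv hb A (by omega)) le_rfl
    have h4 : Sml cl dg k' (8 ^ A.len * 2 ^ S.card * η)
        ((tev T B : R) * ((ev v A - tev T A) * ∏ j ∈ S, tfa v T j)) :=
      tone _ (by positivity) T B h1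
    have h5 : (tev T (Fm.imp A B) : R) = 1 - tev T A + tev T A * tev T B := by
      unfold tev
      have h6 : (Fm.imp A B).eval (fun i => decide (i ∈ T)) =
        (!(A.eval (fun i => decide (i ∈ T))) || B.eval (fun i => decide (i ∈ T))) := rfl
      rw [h6]
      cases A.eval (fun i => decide (i ∈ T)) <;> cases B.eval (fun i => decide (i ∈ T)) <;> simp
    have e : (ev v (Fm.imp A B) - tev T (Fm.imp A B)) * ∏ j ∈ S, tfa v T j =
        -((ev v A - tev T A) * ∏ j ∈ S, tfa v T j) +
          ev v A * ((ev v B - tev T B) * ∏ j ∈ S, tfa v T j) +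
          tev T B * ((ev v A - tev T A) * ∏ j ∈ S, tfa v T j) := by
      rw [h5]
      change (1 - ev v A + ev v A * ev v B - _) * _ = _
      ring
    rw [e]
    refine ((h1.neg.add h3).add h4).mono hL le_rfl ?_
    rw [hlen, pow_succ, pow_add]
    have a1 : (1 : ℝ) ≤ 8 ^ A.len := one_le_pow₀ (by norm_num)
    have b1 : (1 : ℝ) ≤ 8 ^ B.len := one_le_pow₀ (by norm_num)
    have a2 : (4 : ℝ) ^ A.len ≤ 8 ^ A.len := pow_le_pow_left₀ (by norm_num) (by norm_num) _
    have c0 : 0 ≤ (2 : ℝ) ^ S.card * η := by positivity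
    obtain ⟨c, hc⟩ : ∃ c, c = (2 : ℝ) ^ S.card * η := ⟨_, rfl⟩
    obtain ⟨a, ha⟩ : ∃ a, a = (8 : ℝ) ^ A.len := ⟨_, rfl⟩
    obtain ⟨b, hb⟩ : ∃ b, b = (8 : ℝ) ^ B.len := ⟨_, rfl⟩
    obtain ⟨d, hd⟩ : ∃ d, d = (4 : ℝ) ^ A.len := ⟨_, rfl⟩
    have d0 : 0 ≤ d := by rw [hd]; positivity
    have g1 : 8 ^ A.len * 2 ^ S.card * η + 8 ^ B.len * 2 ^ S.card * η * 4 ^ A.len +
        8 ^ A.len * 2 ^ S.card * η = a * c + b * c * d + a * c := by
      rw [ha, hb, hc, hd]
      ring
    have g2 : 8 ^ A.len * 8 ^ B.len * 8 * 2 ^ S.card * η = a * b * 8 * c := by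
      rw [ha, hb, hc]
      ring
    rw [g1, g2]
    rw [← ha] at a1 a2
    rw [← hd] at a2
    rw [← hb] at b1
    rw [← hc] at c0
    have t1 : a ≤ a * b := by nlinarith
    have t2 : b * d ≤ a * b := by nlinarith
    have t3 : a * c + b * c * d + a * c ≤ (a * b + a * b + a * b) * c := by nlinarith
    have t4 : 0 ≤ a * b := by nlinarith
    have t5 : (a * b + a * b + a * b) * c ≤ a * b * 8 * c := by nlinarith
    linarith

theorem taut (hL : Liar cl dg K) {v : κ → R} {W k : ℕ} {η : ℝ} (hη : 0 ≤ η)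
    (hv : ∀ i, v i ∈ dg W) (hb : ∀ i, Sml cl dg k 2 (v i)) (hb' : ∀ i, Sml cl dg k 2 (1 - v i))
    (hi : ∀ i, Sml cl dg k η (v i * v i - v i)) (F : Fm κ) (hF : ∀ x, F.eval x = true) {k' : ℕ}
    (hk : k' + 2 * F.len * W ≤ k) : Sml cl dg k' (64 ^ F.len * η) (1 - ev v F) := by
  classical
  obtain ⟨S, hS⟩ : ∃ S, S = tvs F := ⟨_, rfl⟩
  have hcard : S.card ≤ F.len := by
    rw [hS]
    exact tvs_card F
  have hk2 : k' + (F.len + S.card) * W ≤ k := by
    have : (F.len + S.card) * W ≤ 2 * F.len * W := Nat.mul_le_mul_right W (by omega)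
    omega
  have hsum : (1 : R) = ∑ T ∈ S.powerset, ∏ i ∈ S, tfa v (T : Set κ) i := by
    have h1 := Finset.prod_add v (fun i => 1 - v i) S
    have h2 : ∏ i ∈ S, (v i + (1 - v i)) = 1 := by
      refine Finset.prod_eq_one fun i _ => ?_
      ring
    rw [h2] at h1
    rw [h1]
    refine Finset.sum_congr rfl fun T hT => ?_
    have hTS := Finset.mem_powerset.1 hT
    have h3 : ∏ i ∈ S, tfa v (T : Set κ) i =
        ∏ i ∈ S, (if i ∈ T then v i else 1 - v i) := by
      refine Finset.prod_congr rfl fun i _ => ?_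
      unfold tfa
      by_cases h : i ∈ T
      · rw [if_pos h, if_pos (Finset.mem_coe.2 h)]
      · rw [if_neg h, if_neg (fun h' => h (Finset.mem_coe.1 h'))]
    rw [h3, Finset.prod_ite, Finset.filter_mem_eq_inter, Finset.inter_eq_right.2 hTS,
      Finset.filter_notMem_eq_sdiff]
  have h1 : 1 - ev v F =
      -∑ T ∈ S.powerset, (ev v F - tev (T : Set κ) F) * ∏ i ∈ S, tfa v (T : Set κ) i := by
    have h2 : ∀ T ∈ S.powerset, (ev v F - tev (T : Set κ) F) * ∏ i ∈ S, tfa v (T : Set κ) i =
        (ev v F - 1) * ∏ i ∈ S, tfa v (T : Set κ) i := by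
      intro T _
      have h3 : (tev (T : Set κ) F : R) = 1 := by
        unfold tev
        rw [if_pos (hF _)]
      rw [h3]
    rw [Finset.sum_congr rfl h2, ← Finset.mul_sum, ← hsum]
    ring
  rw [h1]
  have h4 := (Sml.sum (η := fun _ => 8 ^ F.len * 2 ^ S.card * η) S.powerset fun T _ =>
    tmain hL hη hv hb hb' hi (T : Set κ) S F (by rw [hS]) hk2).neg
  refine h4.mono hL le_rfl ?_
  rw [Finset.sum_const, Finset.card_powerset, nsmul_eq_mul]
  push_cast
  have h5 : (2 : ℝ) ^ S.card * (8 ^ F.len * 2 ^ S.card * η) = (4 ^ S.card * 8 ^ F.len) * η := by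
    have h6 : (4 : ℝ) ^ S.card = 2 ^ S.card * 2 ^ S.card := by
      rw [← mul_pow]
      norm_num
    rw [h6]
    ring
  rw [h5]
  have h7 : (4 : ℝ) ^ S.card ≤ 8 ^ F.len :=
    (pow_le_pow_right₀ (by norm_num) hcard).trans
      (pow_le_pow_left₀ (by norm_num) (by norm_num) _)
  have h8 : (64 : ℝ) ^ F.len = 8 ^ F.len * 8 ^ F.len := by
    rw [← mul_pow]
    norm_num
  rw [h8]
  gcongr

end Pool.Agent.H81.QG
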