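import Mathlib
import Pool.Agent.H81.QG.Taut

set_option autoImplicit false

/-!
# [H81 QG GLUE] Local contradictions of Frege derivations

`hV : VI ...` gives (with `vbd`, `η ≤ 1`, `k + 2 W ≤ K`) the bounds `2` for `V F`, `1 - V F` on degree
`k`. Small elements by `Sml.mulb` (multiplier on the left).
* `mp_sml`: `V A * V (A→B) * (1 - V B) = (V A * (1 - V B)) * (V (A→B) - (1 - V A + V A * V B)) -
  (1 - V B) * (V A * V A - V A) - (V A * V A) * (V B * V B - V B)`: `4η + 2η + 4η`.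
* `neg_sml`: `V A * V (neg A) = V A * (V (neg A) - (1 - V A)) - (V A * V A - V A)`: `2η + η`.
* `and_sml`: `V (neg (A → neg B)) - V A * V B = (V (neg I) - (1 - V I)) - (V I - (1 - V A + V A * V (neg B)))
  - V A * (V (neg B) - (1 - V B))` with `I = A → neg B`: `η + η + 2η`. (`leaves (neg B) = leaves B`.)
* `inst_sml`: `ψ.bind σ`: `v i := if (σ i).leaves ≤ s then V (σ i) else 0`, `U F := V (F.bind σ)`,
  `ok F := (F.bind σ).leaves ≤ s`; `evU` gives `V (ψ.bind σ) - ev v ψ` small (`8^len`), `taut` gives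
  `1 - ev v ψ` small (`64^len`). `v i * v i - v i = 0` if `v i = 0`. Total `≤ 100 ^ len` as `1 ≤ len`
  (`64 ^ n + 8 ^ n ≤ 100 ^ n` for `n ≥ 1`). (`hvar` of `evU`: `ok (var i)` says `(σ i).leaves ≤ s`, so the
  difference is `0`.)
* `ax_sml`: `evU` with `U = V`, `v = y`, `ok F := F.leaves ≤ s`; `Sml k 2 (y i)`: `vbd` with `η := 0` (`y i * y i -
  y i = 0`), `y i ∈ dg 1 ≤ dg W`; and `1 - ev y A` is small with constant `0` by `h0`.
-/

namespace Pool.Agent.H81.QG

open Finset Pool.Agent.H3.Frg Pool.Agent.H3.Frg2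

variable {R H ι : Type} [CommRing R] [Algebra ℝ R] [NormedAddCommGroup H] [InnerProductSpace ℝ H]
variable {cl : R →ₗ[ℝ] H} {dg : ℕ → Submodule ℝ R} {K : ℕ}

private theorem lv_imp (A B : Fm ι) : (A.imp B).leaves = A.leaves + B.leaves := rfl

private theorem lv_neg (A : Fm ι) : (Fm.neg A).leaves = A.leaves := rfl

theorem VI.bd (hL : Liar cl dg K) {V : Fm ι → R} {y : ι → R} {W s k : ℕ} {η : ℝ}
    (hV : VI cl dg V y W s k η) (hη : 0 ≤ η) (hη1 : η ≤ 1) (hK : k + 2 * W ≤ K) {A : Fm ι}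
    (hA : A.leaves ≤ s) : Sml cl dg k 2 (V A) ∧ Sml cl dg k 2 (1 - V A) := by
  obtain ⟨h1, h2⟩ := vbd hL (hV.deg A hA) hη (hV.idem A hA) hK
  exact ⟨h1.mono hL le_rfl (by linarith), h2.mono hL le_rfl (by linarith)⟩

theorem mp_sml (hL : Liar cl dg K) {V : Fm ι → R} {y : ι → R} {W s k : ℕ} {η : ℝ}
    (hV : VI cl dg V y W s k η) (hη : 0 ≤ η) (hη1 : η ≤ 1) (hK : k + 2 * W ≤ K) {A B : Fm ι}
    (hA : (A.imp B).leaves ≤ s) {k' : ℕ} (hk : k' + 2 * W ≤ k) :
    Sml cl dg k' (10 * η) (V A * V (A.imp B) * (1 - V B)) := by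
  have hA' : A.leaves ≤ s := by rw [lv_imp] at hA; omega
  have hB' : B.leaves ≤ s := by rw [lv_imp] at hA; omega
  obtain ⟨a1, a2⟩ := hV.bd hL hη hη1 hK hA'
  obtain ⟨b1, b2⟩ := hV.bd hL hη hη1 hK hB'
  have ha : V A ∈ dg W := hV.deg A hA'
  have hb : 1 - V B ∈ dg W := sub_mem (hL.mono (Nat.zero_le W) hL.one) (hV.deg B hB')
  have e : V A * V (A.imp B) * (1 - V B) =
      (V A * (1 - V B)) * (V (A.imp B) - (1 - V A + V A * V B)) -
      (1 - V B) * (V A * V A - V A) - (V A * V A) * (V B * V B - V B) := by ring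
  have m1 : Sml cl dg k' (2 * 2) (V A * (1 - V B)) :=
    Sml.mulb hL b2 (by norm_num) ha (a1.mono hL (by omega) le_rfl) (by omega)
  have m2 : Sml cl dg k' (2 * 2) (V A * V A) :=
    Sml.mulb hL a1 (by norm_num) ha (a1.mono hL (by omega) le_rfl) (by omega)
  have d1 : V A * (1 - V B) ∈ dg (W + W) := hL.mul _ _ _ _ ha hb
  have d2 : V A * V A ∈ dg (W + W) := hL.mul _ _ _ _ ha ha
  have t1 := Sml.mulb hL (hV.imp A B hA) hη d1 m1 (by omega)
  have t2 := Sml.mulb hL (hV.idem A hA') hη hb (b2.mono hL (show k' ≤ k by omega) le_rfl) (by omega)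
  have t3 := Sml.mulb hL (hV.idem B hB') hη d2 m2 (by omega)
  rw [e]
  exact ((t1.sub t2).sub t3).mono hL le_rfl (by linarith)

theorem neg_sml (hL : Liar cl dg K) {V : Fm ι → R} {y : ι → R} {W s k : ℕ} {η : ℝ}
    (hV : VI cl dg V y W s k η) (hη : 0 ≤ η) (hη1 : η ≤ 1) (hK : k + 2 * W ≤ K) {A : Fm ι}
    (hA : A.leaves ≤ s) {k' : ℕ} (hk : k' + W ≤ k) :
    Sml cl dg k' (10 * η) (V A * V (.neg A)) := by
  obtain ⟨a1, a2⟩ := hV.bd hL hη hη1 hK hA
  have ha : V A ∈ dg W := hV.deg A hA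
  have e : V A * V (.neg A) = V A * (V (.neg A) - (1 - V A)) - (V A * V A - V A) := by ring
  have t1 := Sml.mulb hL (hV.neg A hA) hη ha (a1.mono hL (show k' ≤ k by omega) le_rfl) (by omega)
  have t2 : Sml cl dg k' η (V A * V A - V A) := (hV.idem A hA).mono hL (by omega) le_rfl
  rw [e]
  exact (t1.sub t2).mono hL le_rfl (by linarith)

theorem and_sml (hL : Liar cl dg K) {V : Fm ι → R} {y : ι → R} {W s k : ℕ} {η : ℝ}
    (hV : VI cl dg V y W s k η) (hη : 0 ≤ η) (hη1 : η ≤ 1) (hK : k + 2 * W ≤ K) {A B : Fm ι}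
    (hA : A.leaves + B.leaves ≤ s) {k' : ℕ} (hk : k' + W ≤ k) :
    Sml cl dg k' (10 * η) (V (.neg (.imp A (.neg B))) - V A * V B) := by
  have hA' : A.leaves ≤ s := by omega
  have hB' : B.leaves ≤ s := by omega
  have hI : (Fm.imp A (.neg B)).leaves ≤ s := by rw [lv_imp, lv_neg]; exact hA
  obtain ⟨a1, a2⟩ := hV.bd hL hη hη1 hK hA'
  have ha : V A ∈ dg W := hV.deg A hA'
  have e : V (.neg (.imp A (.neg B))) - V A * V B =
      (V (.neg (.imp A (.neg B))) - (1 - V (.imp A (.neg B)))) -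
        (V (.imp A (.neg B)) - (1 - V A + V A * V (.neg B))) -
        V A * (V (.neg B) - (1 - V B)) := by
    ring
  have t1 : Sml cl dg k' η (V (.neg (.imp A (.neg B))) - (1 - V (.imp A (.neg B)))) :=
    (hV.neg _ hI).mono hL (by omega) le_rfl
  have t2 : Sml cl dg k' η (V (.imp A (.neg B)) - (1 - V A + V A * V (.neg B))) :=
    (hV.imp A _ hI).mono hL (by omega) le_rfl
  have t3 := Sml.mulb hL (hV.neg B hB') hη ha (a1.mono hL (show k' ≤ k by omega) le_rfl) (by omega)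
  rw [e]
  exact ((t1.sub t2).sub t3).mono hL le_rfl (by linarith)

private theorem len_pos' {κ : Type} (F : Fm κ) : 1 ≤ F.len := by
  cases F with
  | var _ => exact le_rfl
  | neg A => exact Nat.le_add_left 1 _
  | imp A B => exact Nat.le_add_left 1 _

private theorem pow_bd {n : ℕ} (hn : 1 ≤ n) : (64 : ℝ) ^ n + 8 ^ n ≤ 100 ^ n := by
  induction n, hn using Nat.le_induction with
  | base => norm_num
  | succ n _ ih =>
    have h1 : (0 : ℝ) < 8 ^ n := by positivity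
    have h2 : (0 : ℝ) < 64 ^ n := by positivity
    have h3 : (0 : ℝ) < 100 ^ n := by positivity
    rw [pow_succ, pow_succ, pow_succ]
    nlinarith

theorem inst_sml (hL : Liar cl dg K) {V : Fm ι → R} {y : ι → R} {W s k : ℕ} {η : ℝ}
    (hV : VI cl dg V y W s k η) (hη : 0 ≤ η) (hη1 : η ≤ 1) (hK : k + 2 * W ≤ K) (ψ : Fm ℕ)
    (σ : ℕ → Fm ι) (hψ : ∀ x, ψ.eval x = true) (hs : (ψ.bind σ).leaves ≤ s) {k' : ℕ}
    (hk : k' + 2 * ψ.len * W ≤ k) : Sml cl dg k' (100 ^ ψ.len * η) (1 - V (ψ.bind σ)) := by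
  classical
  obtain ⟨v, hv⟩ : ∃ v : ℕ → R, v = fun i => if (σ i).leaves ≤ s then V (σ i) else 0 := ⟨_, rfl⟩
  have hv1 : ∀ i, (σ i).leaves ≤ s → v i = V (σ i) := fun i h => by rw [hv]; exact if_pos h
  have hv0 : ∀ i, ¬ (σ i).leaves ≤ s → v i = 0 := fun i h => by rw [hv]; exact if_neg h
  have c1 : ∀ i, v i ∈ dg W := fun i => by
    by_cases h : (σ i).leaves ≤ s
    · rw [hv1 i h]
      exact hV.deg _ h
    · rw [hv0 i h]
      exact zero_mem _
  have c2 : ∀ i, Sml cl dg k 2 (v i) := fun i => by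
    by_cases h : (σ i).leaves ≤ s
    · rw [hv1 i h]
      exact (hV.bd hL hη hη1 hK h).1
    · rw [hv0 i h]
      exact Sml.zero (by norm_num)
  have c3 : ∀ i, Sml cl dg k 2 (1 - v i) := fun i => by
    by_cases h : (σ i).leaves ≤ s
    · rw [hv1 i h]
      exact (hV.bd hL hη hη1 hK h).2
    · rw [hv0 i h, sub_zero]
      exact Sml.one' (by norm_num)
  have c4 : ∀ i, Sml cl dg k η (v i * v i - v i) := fun i => by
    by_cases h : (σ i).leaves ≤ s
    · rw [hv1 i h]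
      exact hV.idem _ h
    · rw [hv0 i h, mul_zero, sub_zero]
      exact Sml.zero hη
  have hk1 : k' + ψ.len * W ≤ k := by
    have h1 : ψ.len * W ≤ 2 * ψ.len * W := Nat.mul_le_mul_right _ (by omega)
    omega
  have t1 : Sml cl dg k' (8 ^ ψ.len * η) (V (ψ.bind σ) - ev v ψ) := by
    refine evU hL hη c1 c2 (U := fun F => V (F.bind σ)) (ok := fun F => (F.bind σ).leaves ≤ s)
      ?_ ?_ ?_ ?_ ?_ ?_ ψ hs hk1
    · intro A h
      exact h
    · intro A B h
      have h1 : (A.bind σ).leaves + (B.bind σ).leaves ≤ s := h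
      exact ⟨by omega, by omega⟩
    · intro F h
      exact ⟨hV.deg _ h, (hV.bd hL hη hη1 hK h).1⟩
    · intro i h
      have h1 : (σ i).leaves ≤ s := h
      have h2 : V ((Fm.var i).bind σ) - v i = 0 := by
        rw [hv1 i h1]
        exact sub_self _
      rw [h2]
      exact Sml.zero hη
    · intro A h
      exact hV.neg (A.bind σ) h
    · intro A B h
      exact hV.imp (A.bind σ) (B.bind σ) h
  have t2 := taut hL hη c1 c2 c3 c4 ψ hψ hk
  have e : 1 - V (ψ.bind σ) = (1 - ev v ψ) - (V (ψ.bind σ) - ev v ψ) := by ring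
  rw [e]
  refine (t2.sub t1).mono hL le_rfl ?_
  have h1 := pow_bd (len_pos' ψ)
  nlinarith

theorem ax_sml (hL : Liar cl dg K) {V : Fm ι → R} {y : ι → R} {W s k : ℕ} {η : ℝ} (hW : 1 ≤ W)
    (hV : VI cl dg V y W s k η) (hη : 0 ≤ η) (hη1 : η ≤ 1) (hK : k + 2 * W ≤ K) (A : Fm ι)
    (h0 : ∀ p ∈ dg k, cl ((1 - ev y A) * p) = 0) (hs : A.leaves ≤ s) {k' : ℕ}
    (hk : k' + A.len * W ≤ k) : Sml cl dg k' (100 ^ A.len * η) (1 - V A) := by
  have c1 : ∀ i, y i ∈ dg W := fun i => hL.mono hW (hV.degy i)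
  have c2 : ∀ i, Sml cl dg k 2 (y i) := fun i => by
    have h1 : Sml cl dg k 0 (y i * y i - y i) := by
      rw [hV.idy, sub_self]
      exact Sml.zero le_rfl
    exact (vbd hL (c1 i) le_rfl h1 hK).1.mono hL le_rfl (by norm_num)
  have t1 : Sml cl dg k' (8 ^ A.len * η) (V A - ev y A) := by
    refine evU hL hη c1 c2 (U := V) (ok := fun F => F.leaves ≤ s) ?_ ?_ ?_ ?_ ?_ ?_ A hs hk
    · intro A h
      exact h
    · intro A B h
      have h1 : A.leaves + B.leaves ≤ s := h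
      exact ⟨by omega, by omega⟩
    · intro F h
      exact ⟨hV.deg _ h, (hV.bd hL hη hη1 hK h).1⟩
    · intro i _
      exact hV.var i
    · intro A h
      exact hV.neg A h
    · intro A B h
      exact hV.imp A B h
  have t2 : Sml cl dg k' 0 (1 - ev y A) := by
    intro p hp
    rw [h0 p (hL.mono (by omega) hp), norm_zero, zero_mul]
  have e : 1 - V A = (1 - ev y A) - (V A - ev y A) := by ring
  rw [e]
  refine (t2.sub t1).mono hL le_rfl ?_
  rw [zero_add]
  exact mul_le_mul_of_nonneg_right (pow_le_pow_left₀ (by norm_num) (by norm_num) _) hη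

end Pool.Agent.H81.QG
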