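import Mathlib
import Pool.Agent.H81.QG.Glue

set_option autoImplicit false

/-!
# [H81 QG BDS] Syntactic contradictions are bad

`α = {F : Fm ι // F.leaves ≤ s}`; `ax0` = hypotheses and instances of schemes; `rule a b c` says
`b = a → c`. The hypotheses in `Γ` are true up to `η'` on degree `k'`, `10 * 100 ^ ℓ * η ≤ η'`.
* A false axiom: `c = {(a, false)}`, `fac = 1 - V a`: `hΓ` / `inst_sml` (`100 ^ len ≤ 100 ^ ℓ`,
  `2 * len * W ≤ 2 * ℓ * W`).
* `(a, true)` and `(a, false)`: `c = {(a, true), (a, false)}` (`Finset.prod_pair`), the product is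
  `V a * (1 - V a) = -(V a * V a - V a)`.
* Modus ponens: `c = {(a, true), (b, true), (c, false)}`; the three elements are different (`a ≠ b`
  because `b = a → c` has more leaves, `leaves ≥ 1`), the product is `V a * (V b * (1 - V c))`: `mp_sml`.
* `td_tt`, `hd_ht`: from `TD`, `HD` to the abstract trees: induction (`N = 2 n + 1`, so in `td_tt`
  `∃ n, n ≤ N` is enough; every line has at most `s` leaves: by cases on the derivation).
-/

namespace Pool.Agent.H81.QG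

open Finset Classical Pool.Agent.H3.Frg Pool.Agent.H3.Frg2

variable {R H ι : Type} [CommRing R] [Algebra ℝ R] [NormedAddCommGroup H] [InnerProductSpace ℝ H]
variable {cl : R →ₗ[ℝ] H} {dg : ℕ → Submodule ℝ R} {K : ℕ}

/-- Formulas with at most `s` leaves. -/
abbrev Fs (ι : Type) (s : ℕ) : Type := {F : Fm ι // F.leaves ≤ s}

/-- Hypotheses and instances of schemes. -/
def axs (Sch : Set (Fm ℕ)) (Γ : Set (Fm ι)) (s : ℕ) : Set (Fs ι s) :=
  {F | F.1 ∈ Γ ∨ ∃ ψ ∈ Sch, ∃ σ : ℕ → Fm ι, F.1 = ψ.bind σ}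

/-- Modus ponens. -/
def mpr (s : ℕ) (a b c : Fs ι s) : Prop := b.1 = a.1.imp c.1

private theorem bds_leaves_pos {κ : Type} (A : Fm κ) : 1 ≤ A.leaves := by
  induction A with
  | var i => exact le_rfl
  | neg A ih => exact ih
  | imp A B ihA _ =>
    have h1 : (Fm.imp A B).leaves = A.leaves + B.leaves := rfl
    omega

theorem bad_of_bd (hL : Liar cl dg K) {V : Fm ι → R} {y : ι → R} {W s k ℓ : ℕ} {η : ℝ}
    (hW : 1 ≤ W) (hV : VI cl dg V y W s k η) (hη : 0 ≤ η) (hη1 : η ≤ 1) (hK : k + 2 * W ≤ K)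
    {Sch : Set (Fm ℕ)} {Γ : Set (Fm ι)} (hS : ∀ ψ ∈ Sch, ψ.len ≤ ℓ ∧ ∀ x, ψ.eval x = true)
    {k' : ℕ} {η' : ℝ} (hk : k' + (2 * ℓ + 2) * W ≤ k) (hη' : 10 * 100 ^ ℓ * η ≤ η')
    (hΓ : ∀ A ∈ Γ, A.leaves ≤ s → Sml cl dg k' η' (1 - V A)) {h : List (Fs ι s × Bool)}
    (hB : Bd (axs Sch Γ s) (mpr s) h) :
    Bad cl dg (fun F : Fs ι s => V F.1) k' η' h := by
  have e0 : (2 * ℓ + 2) * W = 2 * ℓ * W + 2 * W := by ring
  have p1 : (1 : ℝ) ≤ 100 ^ ℓ := one_le_pow₀ (by norm_num)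
  have pη : 0 ≤ (100 : ℝ) ^ ℓ * η := by positivity
  have hle : ∀ m, m ≤ ℓ → (100 : ℝ) ^ m * η ≤ η' := by
    intro m hm
    have h1 : (100 : ℝ) ^ m ≤ 100 ^ ℓ := pow_le_pow_right₀ (by norm_num) hm
    have h2 : (100 : ℝ) ^ m * η ≤ 100 ^ ℓ * η := mul_le_mul_of_nonneg_right h1 hη
    linarith
  have hf : ∀ a : Fs ι s, fac (fun F : Fs ι s => V F.1) (a, false) = 1 - V a.1 := fun a => by
    unfold fac
    rw [if_neg (by simp)]
  have ht : ∀ a : Fs ι s, fac (fun F : Fs ι s => V F.1) (a, true) = V a.1 := fun a => by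
    unfold fac
    rw [if_pos rfl]
  rcases hB with ⟨a, ha, hah⟩ | ⟨a, h1, h2⟩ | ⟨a, b, c, hr, ha, hb, hc⟩
  · refine ⟨{(a, false)}, ?_, ?_, ?_⟩
    · rw [Finset.card_singleton]
      norm_num
    · intro x hx
      rw [Finset.mem_singleton.1 hx]
      exact hah
    · rw [Finset.prod_singleton, hf]
      rcases ha with ha | ⟨ψ, hψ, σ, hσ⟩
      · exact hΓ _ ha a.2
      · obtain ⟨g1, g2⟩ := hS _ hψ
        have h3 : 2 * ψ.len * W ≤ 2 * ℓ * W := Nat.mul_le_mul_right W (by omega)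
        rw [hσ]
        exact (inst_sml hL hV hη hη1 hK ψ σ g2 (by rw [← hσ]; exact a.2) (k' := k')
          (by omega)).mono hL le_rfl (hle _ g1)
  · refine ⟨{(a, true), (a, false)}, ?_, ?_, ?_⟩
    · exact (Finset.card_insert_le _ _).trans (by rw [Finset.card_singleton]; norm_num)
    · intro x hx
      rcases Finset.mem_insert.1 hx with rfl | hx
      · exact h1
      · rw [Finset.mem_singleton.1 hx]
        exact h2
    · rw [Finset.prod_pair (by simp), hf, ht]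
      have e1 : V a.1 * (1 - V a.1) = -(V a.1 * V a.1 - V a.1) := by ring
      rw [e1]
      refine (hV.idem a.1 a.2).neg.mono hL (by omega) ?_
      have := hle 0 (Nat.zero_le _)
      rw [pow_zero, one_mul] at this
      exact this
  · have hab : a ≠ b := by
      intro hab
      have h3 : a.1.leaves = (a.1.imp c.1).leaves := by
        rw [← hr, hab]
      have h4 : (a.1.imp c.1).leaves = a.1.leaves + c.1.leaves := rfl
      have h5 := bds_leaves_pos c.1
      omega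
    refine ⟨{(a, true), (b, true), (c, false)}, Finset.card_le_three, ?_, ?_⟩
    · intro x hx
      rcases Finset.mem_insert.1 hx with rfl | hx
      · exact ha
      · rcases Finset.mem_insert.1 hx with rfl | hx
        · exact hb
        · rw [Finset.mem_singleton.1 hx]
          exact hc
    · rw [Finset.prod_insert, Finset.prod_pair (by simp), hf, ht, ht]
      · have hb2 : (a.1.imp c.1).leaves ≤ s := by
          have := b.2
          rw [hr] at this
          exact this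
        rw [hr]
        have e1 : V a.1 * (V (a.1.imp c.1) * (1 - V c.1)) =
            V a.1 * V (a.1.imp c.1) * (1 - V c.1) := by ring
        rw [e1]
        refine (mp_sml hL hV hη hη1 hK hb2 (k' := k') (by omega)).mono hL le_rfl ?_
        have h6 : 10 * η ≤ 10 * (100 ^ ℓ * η) := by nlinarith
        linarith
      · rw [Finset.mem_insert, Finset.mem_singleton]
        rintro (h3 | h3)
        · exact hab (congrArg Prod.fst h3)
        · have := congrArg Prod.snd h3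
          simp at this

theorem TD.leaves {Sch : Set (Fm ℕ)} {Γ : Set (Fm ι)} {s N : ℕ} {A : Fm ι}
    (h : TD Sch Γ s N A) : A.leaves ≤ s := by
  cases h with
  | hyp _ _ h => exact h
  | inst _ _ _ h => exact h
  | mp _ _ _ _ _ _ h => exact h

theorem HD.leaves {Sch : Set (Fm ℕ)} {Γ : Set (Fm ι)} {s N : ℕ} {A : Fm ι}
    (h : HD Sch Γ s N A) : A.leaves ≤ s := by
  cases h with
  | hyp _ _ _ h => exact h
  | inst _ _ _ _ h => exact h
  | mp _ _ _ _ _ h => exact h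

private theorem td_aux {Sch : Set (Fm ℕ)} {Γ : Set (Fm ι)} {s N : ℕ} {A : Fm ι}
    (h : TD Sch Γ s N A) : ∀ hA : A.leaves ≤ s,
    ∃ n, n ≤ N ∧ TT (axs Sch Γ s) (mpr s) ⟨A, hA⟩ n := by
  induction h with
  | hyp A hA _ => exact fun h1 => ⟨0, Nat.zero_le _, TT.ax _ (Or.inl hA)⟩
  | inst ψ σ hψ _ => exact fun h1 => ⟨0, Nat.zero_le _, TT.ax _ (Or.inr ⟨ψ, hψ, σ, rfl⟩)⟩
  | mp A B m n hA hB _ ihA ihB =>
    intro h1
    obtain ⟨m', hm, tm⟩ := ihA hA.leaves
    obtain ⟨n', hn, tn⟩ := ihB hB.leaves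
    exact ⟨m' + n' + 1, by omega, TT.mp _ _ _ _ _ tm tn rfl⟩

theorem td_tt {Sch : Set (Fm ℕ)} {Γ : Set (Fm ι)} {s N : ℕ} {A : Fm ι} (h : TD Sch Γ s N A) :
    ∃ n, n ≤ N ∧ TT (axs Sch Γ s) (mpr s) ⟨A, h.leaves⟩ n := td_aux h h.leaves

private theorem hd_aux {Sch : Set (Fm ℕ)} {Γ : Set (Fm ι)} {s N : ℕ} {A : Fm ι}
    (h : HD Sch Γ s N A) : ∀ hA : A.leaves ≤ s, HT (axs Sch Γ s) (mpr s) ⟨A, hA⟩ N := by
  induction h with
  | hyp _ A hA _ => exact fun h1 => HT.ax _ _ (Or.inl hA)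
  | inst _ ψ σ hψ _ => exact fun h1 => HT.ax _ _ (Or.inr ⟨ψ, hψ, σ, rfl⟩)
  | mp _ A B hA hB _ ihA ihB =>
    exact fun h1 => HT.mp _ _ _ _ (ihA hA.leaves) (ihB hB.leaves) rfl

theorem hd_ht {Sch : Set (Fm ℕ)} {Γ : Set (Fm ι)} {s N : ℕ} {A : Fm ι} (h : HD Sch Γ s N A) :
    HT (axs Sch Γ s) (mpr s) ⟨A, h.leaves⟩ N := hd_aux h h.leaves

end Pool.Agent.H81.QG
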