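import Mathlib
import Pool.Agent.H81.QG.Defs

set_option autoImplicit false

/-!
# [H81 QG HIST] Histories: degrees and omitted positions

* `pr_mem`: induction on `h`; `fac V x ∈ dg W` (`1 ∈ dg 0 ≤ dg W`), product in
  `dg (W + h.length * W)`; the omitted case by monotonicity.
* `pr_split`: for a finite set `c` of elements of the history there is a set `O` of positions
  (`< h.length`) with `O.card ≤ c.card` and `pr V ∅ h = (∏ x ∈ c, fac V x) * pr V O h`. Induction on
  `h` for all `c`. `h = []`: `c = ∅`, `O = ∅`. For `x :: h`: if `x ∈ c` use `c.erase x` (its elements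
  are in `h` because they differ from `x`) and `O = insert h.length O'` (then
  `pr V O (x :: h) = pr V O h = pr V O' h`: `pr_congr`, the positions in `h` are `< h.length`),
  `∏ x ∈ c, fac V x = fac V x * ∏ x ∈ c.erase x, fac V x` (`Finset.mul_prod_erase`). If `x ∉ c`:
  all elements of `c` are in `h`, `O = O'`, and `h.length ∉ O'`.
* `pr_congr`: if `O` and `O'` have the same elements `< h.length` then `pr V O h = pr V O' h`.
-/

namespace Pool.Agent.H81.QG

open Finset Classical

variable {R H α : Type} [CommRing R] [Algebra ℝ R] [NormedAddCommGroup H] [InnerProductSpace ℝ H]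
variable {cl : R →ₗ[ℝ] H} {dg : ℕ → Submodule ℝ R} {K : ℕ}

theorem fac_mem (hL : Liar cl dg K) {V : α → R} {W : ℕ} (hV : ∀ a, V a ∈ dg W) (x : α × Bool) :
    fac V x ∈ dg W := by
  unfold fac
  split
  · exact hV x.1
  · exact (dg W).sub_mem (hL.mono (Nat.zero_le W) hL.one) (hV x.1)

theorem pr_mem (hL : Liar cl dg K) {V : α → R} {W : ℕ} (hV : ∀ a, V a ∈ dg W) (O : Finset ℕ)
    (h : List (α × Bool)) : pr V O h ∈ dg (h.length * W) := by
  induction h with
  | nil => exact hL.mono (Nat.zero_le _) hL.one
  | cons x h ih =>
    have e : (x :: h).length * W = W + h.length * W := by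
      rw [List.length_cons]; ring
    rw [e]
    unfold pr
    split
    · exact hL.mono (Nat.le_add_left _ _) ih
    · exact hL.mul _ _ _ _ (fac_mem hL hV x) ih

theorem pr_congr {V : α → R} {O O' : Finset ℕ} {h : List (α × Bool)}
    (hO : ∀ i < h.length, i ∈ O ↔ i ∈ O') : pr V O h = pr V O' h := by
  induction h with
  | nil => rfl
  | cons x h ih =>
    have h1 : pr V O h = pr V O' h := ih fun i hi => hO i (by rw [List.length_cons]; omega)
    have h2 : h.length ∈ O ↔ h.length ∈ O' := hO _ (by rw [List.length_cons]; omega)
    unfold pr
    by_cases h3 : h.length ∈ O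
    · rw [if_pos h3, if_pos (h2.1 h3), h1]
    · rw [if_neg h3, if_neg (fun h4 => h3 (h2.2 h4)), h1]

theorem pr_split {V : α → R} (h : List (α × Bool)) (c : Finset (α × Bool))
    (hc : ∀ x ∈ c, x ∈ h) : ∃ O : Finset ℕ, O ⊆ range h.length ∧ O.card ≤ c.card ∧
      pr V ∅ h = (∏ x ∈ c, fac V x) * pr V O h := by
  induction h generalizing c with
  | nil =>
    have h1 : c = ∅ := by
      apply Finset.eq_empty_of_forall_notMem
      intro x hx
      exact absurd (hc x hx) List.not_mem_nil
    subst h1
    exact ⟨∅, by simp, by simp, by simp⟩
  | cons x h ih =>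
    have e0 : pr V ∅ (x :: h) = fac V x * pr V ∅ h := by
      show (if h.length ∈ (∅ : Finset ℕ) then pr V ∅ h else fac V x * pr V ∅ h) = _
      rw [if_neg (Finset.notMem_empty _)]
    by_cases hx : x ∈ c
    · obtain ⟨O, h1, h2, h3⟩ := ih (c.erase x) (fun y hy => by
        have h4 := Finset.mem_erase.1 hy
        rcases List.mem_cons.1 (hc y h4.2) with h5 | h5
        · exact absurd h5 h4.1
        · exact h5)
      refine ⟨insert h.length O, ?_, ?_, ?_⟩
      · intro i hi
        rw [Finset.mem_range, List.length_cons]
        rcases Finset.mem_insert.1 hi with h5 | h5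
        · omega
        · have := Finset.mem_range.1 (h1 h5)
          omega
      · refine (Finset.card_insert_le _ _).trans ?_
        have h5 : (c.erase x).card + 1 = c.card := Finset.card_erase_add_one hx
        omega
      · have e1 : pr V (insert h.length O) (x :: h) = pr V (insert h.length O) h := by
          show (if h.length ∈ insert h.length O then pr V (insert h.length O) h
            else fac V x * pr V (insert h.length O) h) = _
          rw [if_pos (Finset.mem_insert_self _ _)]
        have e2 : pr V (insert h.length O) h = pr V O h := by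
          apply pr_congr
          intro i hi
          rw [Finset.mem_insert]
          constructor
          · rintro (h5 | h5)
            · omega
            · exact h5
          · exact Or.inr
        rw [e0, e1, e2, h3, ← Finset.mul_prod_erase c (fac V) hx, mul_assoc]
    · obtain ⟨O, h1, h2, h3⟩ := ih c (fun y hy => by
        rcases List.mem_cons.1 (hc y hy) with h5 | h5
        · exact absurd (h5 ▸ hy) hx
        · exact h5)
      refine ⟨O, ?_, h2, ?_⟩
      · intro i hi
        rw [Finset.mem_range, List.length_cons]
        have := Finset.mem_range.1 (h1 hi)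
        omega
      · have h4 : h.length ∉ O := fun h5 => by
          have := Finset.mem_range.1 (h1 h5)
          omega
        have e1 : pr V O (x :: h) = fac V x * pr V O h := by
          show (if h.length ∈ O then pr V O h else fac V x * pr V O h) = _
          rw [if_neg h4]
        rw [e0, e1, h3]
        ring

end Pool.Agent.H81.QG
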