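import Mathlib
import Pool.Agent.H81.QG.Nrm
import Pool.Agent.H81.QG.Hist

set_option autoImplicit false

/-!
# [H81 QG SUMS] Sums over the leaves of a decision tree

Both by induction on the tree `T`, for all histories `h`.
* `ls_lower`: `(1 - 2η)^(depth T) ‖cl (pr V ∅ h)‖² ≤ LS cl V ∅ T h`. Node: `pr V ∅ (x :: h) =
  fac V x * pr V ∅ h`, so by `vsum` (for `v = V a`, `p = pr V ∅ h ∈ dg (h.length * W)`, `pr_mem`; the
  hypothesis on idempotency holds on degree `k ≥ h.length * W`)
  `‖cl (pr ∅ ((a,false)::h))‖² + ‖cl (pr ∅ ((a,true)::h))‖² ≥ (1 - 2η) ‖cl (pr ∅ h)‖²`; and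
  `(1-2η)^(depth t_i) ≥ (1-2η)^(max - ..)` as `0 ≤ 1 - 2η ≤ 1`.
  (`h.length + depth T ≤ r` is kept: at a node `h.length + 1 ≤ r`, so `h.length * W ≤ k`.)
* `ls_upper`: `LS cl V O T h ≤ 2^(number of i in O with h.length ≤ i) (1 + 2η)^(depth T)
  ‖cl (pr V O h)‖²`. Node with `h.length ∉ O`: as before with the upper bound of `vsum`. Node with
  `h.length ∈ O`: `pr V O (x :: h) = pr V O h` for both answers, and the number of `i ∈ O` with
  `h.length + 1 ≤ i` is one less.
-/

namespace Pool.Agent.H81.QG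

open Finset Classical

variable {R H α : Type} [CommRing R] [Algebra ℝ R] [NormedAddCommGroup H] [InnerProductSpace ℝ H]
variable {cl : R →ₗ[ℝ] H} {dg : ℕ → Submodule ℝ R} {K : ℕ}

omit [Algebra ℝ R] in
private theorem pr_false {V : α → R} {O : Finset ℕ} {a : α} {h : List (α × Bool)}
    (hO : h.length ∉ O) : pr V O ((a, false) :: h) = (1 - V a) * pr V O h := by
  simp [pr, fac, hO]

omit [Algebra ℝ R] in
private theorem pr_true {V : α → R} {O : Finset ℕ} {a : α} {h : List (α × Bool)}
    (hO : h.length ∉ O) : pr V O ((a, true) :: h) = V a * pr V O h := by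
  simp [pr, fac, hO]

omit [Algebra ℝ R] in
private theorem pr_omit {V : α → R} {O : Finset ℕ} {x : α × Bool} {h : List (α × Bool)}
    (hO : h.length ∈ O) : pr V O (x :: h) = pr V O h := by
  simp [pr, hO]

theorem ls_lower (hL : Liar cl dg K) {V : α → R} {W k r : ℕ} {η : ℝ} (hV : ∀ a, V a ∈ dg W)
    (hi : ∀ a, Sml cl dg k η (V a * V a - V a)) (hη : 0 ≤ η) (hη2 : 2 * η ≤ 1)
    (hk : r * W ≤ k) (hK : k + 2 * W ≤ K) (T : DT α) (h : List (α × Bool))
    (hT : h.length + T.depth ≤ r) :
    (1 - 2 * η) ^ T.depth * ‖cl (pr V ∅ h)‖ ^ 2 ≤ LS cl V ∅ T h := by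
  induction T generalizing h with
  | leaf => simp [DT.depth, LS]
  | node a t0 t1 ih0 ih1 =>
    have hT' : h.length + (max t0.depth t1.depth + 1) ≤ r := hT
    have h0 := ih0 ((a, false) :: h) (by
      have := le_max_left t0.depth t1.depth
      simp only [List.length_cons]
      omega)
    have h1 := ih1 ((a, true) :: h) (by
      have := le_max_right t0.depth t1.depth
      simp only [List.length_cons]
      omega)
    have hp : pr V ∅ h ∈ dg k := by
      refine hL.mono ?_ (pr_mem hL hV ∅ h)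
      refine le_trans (Nat.mul_le_mul_right W ?_) hk
      omega
    have hs := vsum hL (hV a) (hi a) hK hp
    have hs' := (abs_le.1 hs).1
    rw [pr_false (by simp)] at h0
    rw [pr_true (by simp)] at h1
    have hb0 : 0 ≤ 1 - 2 * η := by linarith
    have hb1 : 1 - 2 * η ≤ 1 := by linarith
    have hm0 : (1 - 2 * η) ^ max t0.depth t1.depth ≤ (1 - 2 * η) ^ t0.depth :=
      pow_le_pow_of_le_one hb0 hb1 (le_max_left _ _)
    have hm1 : (1 - 2 * η) ^ max t0.depth t1.depth ≤ (1 - 2 * η) ^ t1.depth :=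
      pow_le_pow_of_le_one hb0 hb1 (le_max_right _ _)
    have e0 := mul_le_mul_of_nonneg_right hm0 (sq_nonneg ‖cl ((1 - V a) * pr V ∅ h)‖)
    have e1 := mul_le_mul_of_nonneg_right hm1 (sq_nonneg ‖cl (V a * pr V ∅ h)‖)
    have hM : 0 ≤ (1 - 2 * η) ^ max t0.depth t1.depth := pow_nonneg hb0 _
    have e2 : (1 - 2 * η) ^ max t0.depth t1.depth * ((1 - 2 * η) * ‖cl (pr V ∅ h)‖ ^ 2) ≤
        (1 - 2 * η) ^ max t0.depth t1.depth *
          (‖cl (V a * pr V ∅ h)‖ ^ 2 + ‖cl ((1 - V a) * pr V ∅ h)‖ ^ 2) :=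
      mul_le_mul_of_nonneg_left (by linarith) hM
    change (1 - 2 * η) ^ (max t0.depth t1.depth + 1) * ‖cl (pr V ∅ h)‖ ^ 2 ≤
      LS cl V ∅ t0 ((a, false) :: h) + LS cl V ∅ t1 ((a, true) :: h)
    have e3 : (1 - 2 * η) ^ (max t0.depth t1.depth + 1) * ‖cl (pr V ∅ h)‖ ^ 2 =
        (1 - 2 * η) ^ max t0.depth t1.depth * ((1 - 2 * η) * ‖cl (pr V ∅ h)‖ ^ 2) := by
      rw [pow_succ]; ring
    rw [e3]
    linarith

theorem ls_upper (hL : Liar cl dg K) {V : α → R} {W k r : ℕ} {η : ℝ} (hV : ∀ a, V a ∈ dg W)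
    (hi : ∀ a, Sml cl dg k η (V a * V a - V a)) (hη : 0 ≤ η)
    (hk : r * W ≤ k) (hK : k + 2 * W ≤ K) (O : Finset ℕ) (T : DT α) (h : List (α × Bool))
    (hT : h.length + T.depth ≤ r) :
    LS cl V O T h ≤ 2 ^ (O.filter fun i => h.length ≤ i).card * (1 + 2 * η) ^ T.depth *
      ‖cl (pr V O h)‖ ^ 2 := by
  induction T generalizing h with
  | leaf =>
    simp only [DT.depth, LS, pow_zero, mul_one]
    have h1 : (1 : ℝ) ≤ 2 ^ (O.filter fun i => h.length ≤ i).card :=
      one_le_pow₀ (by norm_num)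
    nlinarith [sq_nonneg ‖cl (pr V O h)‖]
  | node a t0 t1 ih0 ih1 =>
    have hT' : h.length + (max t0.depth t1.depth + 1) ≤ r := hT
    have h0 := ih0 ((a, false) :: h) (by
      have := le_max_left t0.depth t1.depth
      simp only [List.length_cons]
      omega)
    have h1 := ih1 ((a, true) :: h) (by
      have := le_max_right t0.depth t1.depth
      simp only [List.length_cons]
      omega)
    simp only [List.length_cons] at h0 h1
    have hb1 : 1 ≤ 1 + 2 * η := by linarith
    have hb0 : 0 ≤ 1 + 2 * η := by linarith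
    have hm0 : (1 + 2 * η) ^ t0.depth ≤ (1 + 2 * η) ^ max t0.depth t1.depth :=
      pow_le_pow_right₀ hb1 (le_max_left _ _)
    have hm1 : (1 + 2 * η) ^ t1.depth ≤ (1 + 2 * η) ^ max t0.depth t1.depth :=
      pow_le_pow_right₀ hb1 (le_max_right _ _)
    have hM : 0 ≤ (1 + 2 * η) ^ max t0.depth t1.depth := pow_nonneg hb0 _
    have hC : (0 : ℝ) ≤ 2 ^ (O.filter fun i => h.length + 1 ≤ i).card := by positivity
    change LS cl V O t0 ((a, false) :: h) + LS cl V O t1 ((a, true) :: h) ≤
      2 ^ (O.filter fun i => h.length ≤ i).card * (1 + 2 * η) ^ (max t0.depth t1.depth + 1) *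
        ‖cl (pr V O h)‖ ^ 2
    by_cases hO : h.length ∈ O
    · rw [pr_omit hO] at h0 h1
      have hc : (O.filter fun i => h.length ≤ i).card =
          (O.filter fun i => h.length + 1 ≤ i).card + 1 := by
        have : (O.filter fun i => h.length ≤ i) =
            insert h.length (O.filter fun i => h.length + 1 ≤ i) := by
          ext i
          simp only [mem_filter, mem_insert]
          constructor
          · rintro ⟨h2, h3⟩
            rcases Nat.eq_or_lt_of_le h3 with h4 | h4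
            · exact Or.inl h4.symm
            · exact Or.inr ⟨h2, h4⟩
          · rintro (h2 | ⟨h2, h3⟩)
            · rw [h2]
              exact ⟨hO, le_rfl⟩
            · exact ⟨h2, by omega⟩
        rw [this, card_insert_of_notMem]
        simp
      rw [hc]
      have e0 := mul_le_mul_of_nonneg_right (mul_le_mul_of_nonneg_left hm0 hC)
        (sq_nonneg ‖cl (pr V O h)‖)
      have e1 := mul_le_mul_of_nonneg_right (mul_le_mul_of_nonneg_left hm1 hC)
        (sq_nonneg ‖cl (pr V O h)‖)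
      have hX : 0 ≤ 2 ^ (O.filter fun i => h.length + 1 ≤ i).card *
          (1 + 2 * η) ^ max t0.depth t1.depth * ‖cl (pr V O h)‖ ^ 2 := by positivity
      have e3 : 2 ^ ((O.filter fun i => h.length + 1 ≤ i).card + 1) *
          (1 + 2 * η) ^ (max t0.depth t1.depth + 1) * ‖cl (pr V O h)‖ ^ 2 =
          2 * (1 + 2 * η) * (2 ^ (O.filter fun i => h.length + 1 ≤ i).card *
          (1 + 2 * η) ^ max t0.depth t1.depth * ‖cl (pr V O h)‖ ^ 2) := by
        rw [pow_succ, pow_succ]; ring
      rw [e3]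
      nlinarith [mul_nonneg hη hX]
    · rw [pr_false hO] at h0
      rw [pr_true hO] at h1
      have hc : (O.filter fun i => h.length ≤ i) = (O.filter fun i => h.length + 1 ≤ i) := by
        ext i
        simp only [mem_filter]
        constructor
        · rintro ⟨h2, h3⟩
          refine ⟨h2, ?_⟩
          rcases Nat.eq_or_lt_of_le h3 with h4 | h4
          · exact absurd h2 (h4 ▸ hO)
          · exact h4
        · rintro ⟨h2, h3⟩
          exact ⟨h2, by omega⟩
      rw [hc]
      have hp : pr V O h ∈ dg k := by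
        refine hL.mono ?_ (pr_mem hL hV O h)
        refine le_trans (Nat.mul_le_mul_right W ?_) hk
        omega
      have hs := vsum hL (hV a) (hi a) hK hp
      have hs' := (abs_le.1 hs).2
      have e0 := mul_le_mul_of_nonneg_right (mul_le_mul_of_nonneg_left hm0 hC)
        (sq_nonneg ‖cl ((1 - V a) * pr V O h)‖)
      have e1 := mul_le_mul_of_nonneg_right (mul_le_mul_of_nonneg_left hm1 hC)
        (sq_nonneg ‖cl (V a * pr V O h)‖)
      have e2 : 2 ^ (O.filter fun i => h.length + 1 ≤ i).card *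
          (1 + 2 * η) ^ max t0.depth t1.depth *
          (‖cl (V a * pr V O h)‖ ^ 2 + ‖cl ((1 - V a) * pr V O h)‖ ^ 2) ≤
          2 ^ (O.filter fun i => h.length + 1 ≤ i).card *
          (1 + 2 * η) ^ max t0.depth t1.depth * ((1 + 2 * η) * ‖cl (pr V O h)‖ ^ 2) :=
        mul_le_mul_of_nonneg_left (by linarith) (mul_nonneg hC hM)
      have e3 : 2 ^ (O.filter fun i => h.length + 1 ≤ i).card *
          (1 + 2 * η) ^ (max t0.depth t1.depth + 1) * ‖cl (pr V O h)‖ ^ 2 =
          2 ^ (O.filter fun i => h.length + 1 ≤ i).card *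
          (1 + 2 * η) ^ max t0.depth t1.depth * ((1 + 2 * η) * ‖cl (pr V O h)‖ ^ 2) := by
        rw [pow_succ (1 + 2 * η)]; ring
      rw [e3]
      linarith

end Pool.Agent.H81.QG
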