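import Mathlib
import Pool.Agent.H81.QG.Sums

set_option autoImplicit false

/-!
# [H81 QG GAME] The liar wins every short game

Let `𝒪` be the set of the subsets of `range r` with at most `3` elements; `𝒪.card ≤ (r + 1)^3`.
(1) At a leaf with history `h` (`h.length ≤ r`) with `Bad ... h`: `pr_split` gives `O ∈ 𝒪` with
`pr V ∅ h = (∏ x ∈ c, fac V x) * pr V O h`, `pr V O h ∈ dg (h.length * W) ≤ dg k`, so
`‖cl (pr V ∅ h)‖² ≤ η² ‖cl (pr V O h)‖² ≤ η² ∑ O ∈ 𝒪, ‖cl (pr V O h)‖²`.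
(2) Induction on the tree: `LS cl V ∅ T h ≤ η² ∑ O ∈ 𝒪, LS cl V O T h` if `T.All Bad h`
(`h.length + T.depth ≤ r`).
(3) For `h = []` (`pr V O [] = 1`, `‖cl 1‖ = 1`): `(1 - 2η)^r ≤ η² (r+1)^3 * 8 * (1 + 2η)^r` by
`ls_lower`, `ls_upper` (`2 ^ card ≤ 2 ^ 3`; `(1-2η)^r ≤ (1-2η)^depth`, `(1+2η)^depth ≤ (1+2η)^r`).
(4) `10 (r+1)² η ≤ 1`: `(1 - 2η)^r ≥ 1 - 2ηr ≥ 4/5` (`one_add_mul_le_pow`), `(1 + 2η)^r ≤ exp(2ηr)
≤ exp(1/5) ≤ 5/4` (or: `(1+2η)^r (1-2η)^r ≤ 1`, so `(1+2η)^r ≤ 5/4`), and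
`η² (r+1)^3 * 8 * 5/4 ≤ 10 / (100 (r+1)) ≤ 1/10`. Contradiction.
For `𝒪`: `((range r).powerset.filter (·.card ≤ 3))`; for the cardinality: it is at most
`∑ j ≤ 3, C(r, j) ≤ (r+1)^3` (`C(r,0) + C(r,1) + C(r,2) + C(r,3)`), or: the map
`(a, b, c) ↦ ({a, b, c} : Finset ℕ) ∩ range r` from `range (r+1)^3` is onto `𝒪` (value `r` = no
element), so `𝒪` is contained in the image of a set with `(r+1)^3` elements: `Finset.card_image_le`.
-/

namespace Pool.Agent.H81.QG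

open Finset Classical

variable {R H α : Type} [CommRing R] [Algebra ℝ R] [NormedAddCommGroup H] [InnerProductSpace ℝ H]
variable {cl : R →ₗ[ℝ] H} {dg : ℕ → Submodule ℝ R} {K : ℕ}

private theorem game_card (r : ℕ) : ((range r).powerset.filter fun O => O.card ≤ 3).card ≤ (r + 1) ^ 3 := by
  have h1 : ((range r).powerset.filter fun O => O.card ≤ 3) ⊆
      (range 4).biUnion fun j => powersetCard j (range r) := by
    intro O hO
    rw [mem_filter, mem_powerset] at hO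
    rw [mem_biUnion]
    exact ⟨O.card, mem_range.2 (by omega), mem_powersetCard.2 ⟨hO.1, rfl⟩⟩
  refine (card_le_card h1).trans (card_biUnion_le.trans ?_)
  rw [sum_range_succ, sum_range_succ, sum_range_succ, sum_range_succ, sum_range_zero,
    card_powersetCard, card_powersetCard, card_powersetCard, card_powersetCard, card_range]
  have h2 : r.choose 0 ≤ r ^ 0 := Nat.choose_le_pow r 0
  have h3 : r.choose 1 ≤ r ^ 1 := Nat.choose_le_pow r 1
  have h4 : r.choose 2 ≤ r ^ 2 := Nat.choose_le_pow r 2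
  have h5 : r.choose 3 ≤ r ^ 3 := Nat.choose_le_pow r 3
  nlinarith [sq_nonneg r]

private theorem game_leaf (hL : Liar cl dg K) {V : α → R} {W k r : ℕ} {η : ℝ} (hV : ∀ a, V a ∈ dg W)
    (hk : r * W ≤ k) (h : List (α × Bool)) (hr : h.length ≤ r)
    (hB : Bad cl dg V k η h) :
    ‖cl (pr V ∅ h)‖ ^ 2 ≤ η ^ 2 * ∑ O ∈ (range r).powerset.filter (fun O => O.card ≤ 3),
      ‖cl (pr V O h)‖ ^ 2 := by
  obtain ⟨c, hc, hch, hs⟩ := hB
  obtain ⟨O, hO1, hO2, hO3⟩ := pr_split (V := V) h c hch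
  have hmem : pr V O h ∈ dg k :=
    hL.mono ((Nat.mul_le_mul_right W hr).trans hk) (pr_mem hL hV O h)
  have h1 : ‖cl (pr V ∅ h)‖ ≤ η * ‖cl (pr V O h)‖ := by
    rw [hO3]
    exact hs _ hmem
  have h2 : ‖cl (pr V ∅ h)‖ ^ 2 ≤ η ^ 2 * ‖cl (pr V O h)‖ ^ 2 := by
    rw [← mul_pow]
    exact pow_le_pow_left₀ (norm_nonneg _) h1 2
  refine h2.trans (mul_le_mul_of_nonneg_left ?_ (sq_nonneg η))
  refine single_le_sum (f := fun O => ‖cl (pr V O h)‖ ^ 2) (fun i _ => sq_nonneg _) ?_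
  rw [mem_filter, mem_powerset]
  refine ⟨hO1.trans fun i hi => ?_, hO2.trans hc⟩
  rw [mem_range] at hi ⊢
  omega

private theorem game_tree (hL : Liar cl dg K) {V : α → R} {W k r : ℕ} {η : ℝ} (hV : ∀ a, V a ∈ dg W)
    (hk : r * W ≤ k) (T : DT α) (h : List (α × Bool)) (hr : h.length + T.depth ≤ r)
    (hB : T.All (Bad cl dg V k η) h) :
    LS cl V ∅ T h ≤ η ^ 2 * ∑ O ∈ (range r).powerset.filter (fun O => O.card ≤ 3), LS cl V O T h := by
  induction T generalizing h with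
  | leaf => exact game_leaf hL hV hk h (by rw [DT.depth] at hr; omega) hB
  | node a t0 t1 ih0 ih1 =>
    obtain ⟨hB0, hB1⟩ := hB
    have hr' : h.length + (max t0.depth t1.depth + 1) ≤ r := hr
    have h0 := ih0 ((a, false) :: h) (by rw [List.length_cons]; omega) hB0
    have h1 := ih1 ((a, true) :: h) (by rw [List.length_cons]; omega) hB1
    calc LS cl V ∅ (.node a t0 t1) h
        = LS cl V ∅ t0 ((a, false) :: h) + LS cl V ∅ t1 ((a, true) :: h) := rfl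
      _ ≤ η ^ 2 * (∑ O ∈ (range r).powerset.filter (fun O => O.card ≤ 3), LS cl V O t0 ((a, false) :: h)) +
          η ^ 2 * (∑ O ∈ (range r).powerset.filter (fun O => O.card ≤ 3), LS cl V O t1 ((a, true) :: h)) :=
        add_le_add h0 h1
      _ = η ^ 2 * ∑ O ∈ (range r).powerset.filter (fun O => O.card ≤ 3), LS cl V O (.node a t0 t1) h := by
        rw [← mul_add, ← sum_add_distrib]
        rfl

private theorem game_num {r : ℕ} {η : ℝ} (hη : 0 ≤ η) (hη2 : 10 * ((r : ℝ) + 1) ^ 2 * η ≤ 1)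
    (h : (1 - 2 * η) ^ r ≤ η ^ 2 * (((r : ℝ) + 1) ^ 3 * (8 * (1 + 2 * η) ^ r))) : False := by
  have hr : (0 : ℝ) ≤ r := Nat.cast_nonneg r
  obtain ⟨N, hN⟩ : ∃ N : ℝ, N = (r : ℝ) + 1 := ⟨_, rfl⟩
  rw [← hN] at h hη2
  have hN1 : 1 ≤ N := by linarith
  have hηN : 10 * N * η ≤ 1 := by
    refine le_trans ?_ hη2
    have h1 : N ≤ N ^ 2 := by nlinarith
    have h2 : N * η ≤ N ^ 2 * η := mul_le_mul_of_nonneg_right h1 hη
    linarith
  have hη1 : 10 * η ≤ 1 := by nlinarith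
  have hlow : 4 / 5 ≤ (1 - 2 * η) ^ r := by
    have h1 := one_add_mul_le_pow (a := -(2 * η)) (by linarith) r
    have h2 : (1 + -(2 * η)) = 1 - 2 * η := by ring
    rw [h2] at h1
    have h3 : (r : ℝ) * η ≤ N * η := mul_le_mul_of_nonneg_right (by linarith) hη
    nlinarith
  have hprod : (1 + 2 * η) ^ r * (1 - 2 * η) ^ r ≤ 1 := by
    rw [← mul_pow]
    refine pow_le_one₀ ?_ ?_
    · nlinarith
    · nlinarith [sq_nonneg η]
  have hup : (1 + 2 * η) ^ r ≤ 5 / 4 := by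
    have h1 : 0 ≤ (1 + 2 * η) ^ r := by positivity
    nlinarith
  have h4 : η ^ 2 * (N ^ 3 * (8 * (1 + 2 * η) ^ r)) ≤ η ^ 2 * (N ^ 3 * 10) := by
    have h5 : 0 ≤ N ^ 3 := by positivity
    refine mul_le_mul_of_nonneg_left (mul_le_mul_of_nonneg_left (by linarith) h5) (sq_nonneg η)
  have h6 : η ^ 2 * N ^ 4 ≤ 1 / 100 := by
    have h7 : η ^ 2 * N ^ 4 = (N ^ 2 * η) ^ 2 := by ring
    have h8 : 0 ≤ N ^ 2 * η := by positivity
    have h9 : N ^ 2 * η ≤ 1 / 10 := by linarith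
    rw [h7]
    calc (N ^ 2 * η) ^ 2 ≤ (1 / 10) ^ 2 := pow_le_pow_left₀ h8 h9 2
      _ = 1 / 100 := by norm_num
  have h10 : η ^ 2 * N ^ 3 ≤ η ^ 2 * N ^ 4 :=
    mul_le_mul_of_nonneg_left (pow_le_pow_right₀ hN1 (by norm_num)) (sq_nonneg η)
  linarith

theorem game (hL : Liar cl dg K) {V : α → R} {W k r : ℕ} {η : ℝ} (hV : ∀ a, V a ∈ dg W)
    (hi : ∀ a, Sml cl dg k η (V a * V a - V a)) (hη : 0 ≤ η)
    (hη2 : 10 * ((r : ℝ) + 1) ^ 2 * η ≤ 1)
    (hk : r * W ≤ k) (hK : k + 2 * W ≤ K) (T : DT α) (hT : T.depth ≤ r)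
    (hB : T.All (Bad cl dg V k η) []) : False := by
  have hr : (0 : ℝ) ≤ r := Nat.cast_nonneg r
  have hη1 : 10 * η ≤ 1 := by
    refine le_trans ?_ hη2
    have h1 : (1 : ℝ) ≤ ((r : ℝ) + 1) ^ 2 := one_le_pow₀ (by linarith)
    nlinarith [mul_le_mul_of_nonneg_right h1 hη]
  have hT' : ([] : List (α × Bool)).length + T.depth ≤ r := by
    rw [List.length_nil, zero_add]
    exact hT
  have hn : ∀ O : Finset ℕ, ‖cl (pr V O ([] : List (α × Bool)))‖ ^ 2 = 1 := by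
    intro O
    have h1 : pr V O ([] : List (α × Bool)) = 1 := rfl
    rw [h1, hL.nrm, one_pow]
  have hlow := ls_lower hL hV hi hη (by linarith) hk hK T [] hT'
  rw [hn, mul_one] at hlow
  have hup : ∀ O ∈ (range r).powerset.filter (fun O => O.card ≤ 3),
      LS cl V O T [] ≤ 8 * (1 + 2 * η) ^ r := by
    intro O hO
    rw [mem_filter] at hO
    have h1 := ls_upper hL hV hi hη hk hK O T [] hT'
    rw [hn, mul_one] at h1
    refine h1.trans ?_
    have h2 : (O.filter fun i => ([] : List (α × Bool)).length ≤ i).card ≤ 3 :=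
      (card_filter_le _ _).trans hO.2
    have h3 : (2 : ℝ) ^ (O.filter fun i => ([] : List (α × Bool)).length ≤ i).card ≤ 2 ^ 3 :=
      pow_le_pow_right₀ (by norm_num) h2
    have h4 : (1 + 2 * η) ^ T.depth ≤ (1 + 2 * η) ^ r := pow_le_pow_right₀ (by linarith) hT
    calc (2 : ℝ) ^ (O.filter fun i => ([] : List (α × Bool)).length ≤ i).card * (1 + 2 * η) ^ T.depth
        ≤ 2 ^ 3 * (1 + 2 * η) ^ r := mul_le_mul h3 h4 (by positivity) (by positivity)
      _ = 8 * (1 + 2 * η) ^ r := by norm_num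
  have htree := game_tree hL hV hk T [] hT' hB
  have hsum : ∑ O ∈ (range r).powerset.filter (fun O => O.card ≤ 3), LS cl V O T [] ≤
      ((r : ℝ) + 1) ^ 3 * (8 * (1 + 2 * η) ^ r) := by
    refine (sum_le_sum hup).trans ?_
    rw [sum_const, nsmul_eq_mul]
    refine mul_le_mul_of_nonneg_right ?_ (by positivity)
    have h1 := game_card r
    calc (((range r).powerset.filter (fun O => O.card ≤ 3)).card : ℝ) ≤ (((r + 1) ^ 3 : ℕ) : ℝ) := by
          exact_mod_cast h1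
      _ = ((r : ℝ) + 1) ^ 3 := by push_cast; ring
  have hpow : (1 - 2 * η) ^ r ≤ (1 - 2 * η) ^ T.depth :=
    pow_le_pow_of_le_one (by linarith) (by linarith) hT
  exact game_num hη hη2 (hpow.trans (hlow.trans (htree.trans
    (mul_le_mul_of_nonneg_left hsum (sq_nonneg η)))))

end Pool.Agent.H81.QG
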