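import Mathlib
import Pool.Agent.H81.QG.Defs

set_option autoImplicit false

/-!
# [H81 QG SEP] Separators of binary trees

* `TT.mono`: induction.
* `sep`: a tree with `n > q ≥ 1` applications of the rule has a subtree `b` with `m` applications,
  `q ≤ 2m`, `m ≤ q`, and the rest (with `b` as a new leaf) has `n - m` applications. Induction on the
  tree. `ax`: `n = 0`, impossible. `mp a b c m1 m2`: `m1 + m2 ≥ q`, so the larger number, say `m1`, has
  `q ≤ 2 m1` (so `m1 ≥ 1`). If `m1 ≤ q` take the subtree of `a`; the rest is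
  `mp a b c 0 m2 (ax a _) (mono) rule`, `0 + m2 + 1 = n - m1`. If `m1 > q` use the induction
  hypothesis for `a` and put the rest together with `mp` (`(m1 - m) + m2 + 1 = n - m`).
  (`TT` is a proposition: use `cases`/`obtain` after rewriting the number, `n` and the equations by
  `omega`; the last step `(by omega : ... = ...) ▸ ...`.)
-/

namespace Pool.Agent.H81.QG

variable {α : Type}

theorem TT.mono {ax ax' : Set α} {rule : α → α → α → Prop} {c : α} {n : ℕ}
    (h : TT ax rule c n) (hax : ax ⊆ ax') : TT ax' rule c n := by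
  induction h with
  | ax a ha => exact TT.ax a (hax ha)
  | mp a b c m n _ _ hr iha ihb => exact TT.mp a b c m n iha ihb hr

theorem sep {ax : Set α} {rule : α → α → α → Prop} {c : α} {n : ℕ} (h : TT ax rule c n) {q : ℕ}
    (hq1 : 1 ≤ q) (hq : q < n) :
    ∃ b m, TT ax rule b m ∧ 1 ≤ m ∧ q ≤ 2 * m ∧ m ≤ q ∧ TT (insert b ax) rule c (n - m) := by
  induction h with
  | ax a ha => omega
  | mp a b c m1 m2 ha hb hr iha ihb =>
    by_cases h1 : q ≤ 2 * m1
    · by_cases h2 : m1 ≤ q
      · refine ⟨a, m1, ha, by omega, h1, h2, ?_⟩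
        have h3 : TT (insert a ax) rule c (0 + m2 + 1) :=
          TT.mp a b c 0 m2 (TT.ax a (Set.mem_insert _ _)) (hb.mono (Set.subset_insert _ _)) hr
        have h4 : m1 + m2 + 1 - m1 = 0 + m2 + 1 := by omega
        rw [h4]
        exact h3
      · obtain ⟨b', m, hb', hm1, hm2, hm3, hm4⟩ := iha (by omega)
        refine ⟨b', m, hb', hm1, hm2, hm3, ?_⟩
        have h3 : TT (insert b' ax) rule c ((m1 - m) + m2 + 1) :=
          TT.mp a b c (m1 - m) m2 hm4 (hb.mono (Set.subset_insert _ _)) hr
        have h4 : m1 + m2 + 1 - m = (m1 - m) + m2 + 1 := by omega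
        rw [h4]
        exact h3
    · by_cases h2 : m2 ≤ q
      · refine ⟨b, m2, hb, by omega, by omega, h2, ?_⟩
        have h3 : TT (insert b ax) rule c (m1 + 0 + 1) :=
          TT.mp a b c m1 0 (ha.mono (Set.subset_insert _ _)) (TT.ax b (Set.mem_insert _ _)) hr
        have h4 : m1 + m2 + 1 - m2 = m1 + 0 + 1 := by omega
        rw [h4]
        exact h3
      · obtain ⟨b', m, hb', hm1, hm2, hm3, hm4⟩ := ihb (by omega)
        refine ⟨b', m, hb', hm1, hm2, hm3, ?_⟩
        have h3 : TT (insert b' ax) rule c (m1 + (m2 - m) + 1) :=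
          TT.mp a b c m1 (m2 - m) (ha.mono (Set.subset_insert _ _)) hm4 hr
        have h4 : m1 + m2 + 1 - m = m1 + (m2 - m) + 1 := by omega
        rw [h4]
        exact h3

end Pool.Agent.H81.QG
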