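import Mathlib
import Pool.Agent.H81.QG.Sep

set_option autoImplicit false

/-!
# [H81 QG STRAT] The strategies of the prover

`D.All (Bd ax0 rule) h`: every leaf of the decision tree `D` below the history `h` has a syntactic
contradiction.
* `strat_small` (`depth ≤ n + 1`), strong induction on `n` (for all `ax`, `c`, `h`).
  `n = 0`: `c ∈ ax` (cases), so `c ∈ ax0` or `(c, true) ∈ h`: `D = leaf`.
  `n = 1`: the tree is `mp a b c 0 0` with `a, b ∈ ax`: ask `a`, if true ask `b`: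
  `node a leaf (node b leaf leaf)`, depth 2: in the first two leaves as for `n = 0`, in the last one
  the third kind of contradiction.
  `n ≥ 2`: `sep` with `q = 1` gives `b` with `m = 1`: ask `b`; false: tree of `b` (`m = 1 < n`), true:
  `TT (insert b ax) rule c (n - 1)`; depth `≤ 1 + max 2 n`.
* `strat`: induction on `k`; `n ≤ 4`: `strat_small`; `n ≥ 5`: `sep` with `q = n / 2`: `m ≤ n / 2`, and
  `n - m ≤ (3 n + 1) / 4 ≤ 4 n / 5`; ask `b`, both cases have at most `4 n / 5` applications.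
* `strat_pow`: `2 ^ r ≤ 4 (5/4)^(4 r)` because `(5/4)^4 ≥ 2`.
* `strat_ht` (height): induction: `ax`: `leaf`; `mp`: ask `a`, if true ask `b`; `depth ≤ 2 + 2 h`.
-/

namespace Pool.Agent.H81.QG

variable {α : Type}

private theorem tt_inv {ax : Set α} {rule : α → α → α → Prop} {c : α} {n : ℕ}
    (h : TT ax rule c n) : (c ∈ ax ∧ n = 0) ∨ ∃ a b m1 m2, TT ax rule a m1 ∧ TT ax rule b m2 ∧
      rule a b c ∧ n = m1 + m2 + 1 := by
  cases h with
  | ax _ hc => exact Or.inl ⟨hc, rfl⟩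
  | mp a b _ m1 m2 h1 h2 h3 => exact Or.inr ⟨a, b, m1, m2, h1, h2, h3, rfl⟩

private theorem tt_zero {ax : Set α} {rule : α → α → α → Prop} {c : α}
    (h : TT ax rule c 0) : c ∈ ax := by
  rcases tt_inv h with ⟨h1, -⟩ | ⟨a, b, m1, m2, -, -, -, h1⟩
  · exact h1
  · omega

private theorem bd_ax {ax0 ax : Set α} {rule : α → α → α → Prop} {c : α} {h : List (α × Bool)}
    (hax : ∀ b ∈ ax, b ∈ ax0 ∨ (b, true) ∈ h) (hc : c ∈ ax) (hf : (c, false) ∈ h) :
    Bd ax0 rule h := by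
  rcases hax c hc with h1 | h1
  · exact Or.inl ⟨c, h1, hf⟩
  · exact Or.inr (Or.inl ⟨c, h1, hf⟩)

private theorem hax_cons {ax0 ax : Set α} {h : List (α × Bool)} (x : α × Bool)
    (hax : ∀ b ∈ ax, b ∈ ax0 ∨ (b, true) ∈ h) : ∀ b ∈ ax, b ∈ ax0 ∨ (b, true) ∈ x :: h :=
  fun b hb => (hax b hb).imp_right fun h1 => List.mem_cons_of_mem _ h1

private theorem hax_ins {ax0 ax : Set α} {h : List (α × Bool)} (b : α)
    (hax : ∀ b ∈ ax, b ∈ ax0 ∨ (b, true) ∈ h) :
    ∀ b' ∈ insert b ax, b' ∈ ax0 ∨ (b', true) ∈ (b, true) :: h := by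
  intro b' hb'
  rcases Set.mem_insert_iff.1 hb' with rfl | h1
  · exact Or.inr List.mem_cons_self
  · exact hax_cons _ hax b' h1

theorem strat_small {ax0 : Set α} {rule : α → α → α → Prop} (n : ℕ) (ax : Set α) (c : α)
    (h : List (α × Bool)) (hT : TT ax rule c n)
    (hax : ∀ b ∈ ax, b ∈ ax0 ∨ (b, true) ∈ h) (hc : (c, false) ∈ h) :
    ∃ D : DT α, D.depth ≤ n + 1 ∧ D.All (Bd ax0 rule) h := by
  induction n using Nat.strong_induction_on generalizing ax c h with
  | _ n ih =>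
    rcases Nat.lt_or_ge n 2 with hn | hn
    · rcases tt_inv hT with ⟨h1, -⟩ | ⟨a, b, m1, m2, h1, h2, h3, h4⟩
      · exact ⟨DT.leaf, Nat.zero_le _, bd_ax hax h1 hc⟩
      · obtain rfl : m1 = 0 := by omega
        obtain rfl : m2 = 0 := by omega
        have ha := tt_zero h1
        have hb := tt_zero h2
        refine ⟨DT.node a DT.leaf (DT.node b DT.leaf DT.leaf), ?_, ?_, ?_, ?_⟩
        · simp only [DT.depth]
          omega
        · exact bd_ax (hax_cons _ hax) ha List.mem_cons_self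
        · exact bd_ax (hax_cons _ (hax_cons _ hax)) hb List.mem_cons_self
        · exact Or.inr (Or.inr ⟨a, b, c, h3, List.mem_cons_of_mem _ List.mem_cons_self,
            List.mem_cons_self, List.mem_cons_of_mem _ (List.mem_cons_of_mem _ hc)⟩)
    · obtain ⟨b, m, h1, h2, -, h3, h4⟩ := sep hT (q := 1) le_rfl (by omega)
      obtain rfl : m = 1 := by omega
      obtain ⟨D0, e0, f0⟩ := ih 1 (by omega) ax b ((b, false) :: h) h1 (hax_cons _ hax)
        List.mem_cons_self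
      obtain ⟨D1, e1, f1⟩ := ih (n - 1) (by omega) (insert b ax) c ((b, true) :: h) h4
        (hax_ins b hax) (List.mem_cons_of_mem _ hc)
      refine ⟨DT.node b D0 D1, ?_, f0, f1⟩
      simp only [DT.depth]
      omega

theorem strat {ax0 : Set α} {rule : α → α → α → Prop} (k n : ℕ) (ax : Set α) (c : α)
    (h : List (α × Bool)) (hT : TT ax rule c n) (hn : (n : ℝ) ≤ 4 * (5 / 4) ^ k)
    (hax : ∀ b ∈ ax, b ∈ ax0 ∨ (b, true) ∈ h) (hc : (c, false) ∈ h) :
    ∃ D : DT α, D.depth ≤ k + 5 ∧ D.All (Bd ax0 rule) h := by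
  induction k generalizing n ax c h with
  | zero =>
    have h4 : n ≤ 4 := by
      rw [pow_zero, mul_one] at hn
      exact_mod_cast hn
    obtain ⟨D, h1, h2⟩ := strat_small (ax0 := ax0) n ax c h hT hax hc
    exact ⟨D, by omega, h2⟩
  | succ k ih =>
    rcases Nat.lt_or_ge n 5 with h4 | h4
    · obtain ⟨D, h1, h2⟩ := strat_small (ax0 := ax0) n ax c h hT hax hc
      exact ⟨D, by omega, h2⟩
    · obtain ⟨b, m, h1, -, h2, h3, h5⟩ := sep hT (q := n / 2) (by omega) (by omega)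
      have key : ∀ m' : ℕ, 5 * m' ≤ 4 * n → (m' : ℝ) ≤ 4 * (5 / 4) ^ k := by
        intro m' hm'
        have e1 : (5 : ℝ) * m' ≤ 4 * n := by exact_mod_cast hm'
        rw [pow_succ] at hn
        linarith
      obtain ⟨D0, e0, f0⟩ := ih m ax b ((b, false) :: h) h1 (key m (by omega)) (hax_cons _ hax)
        List.mem_cons_self
      obtain ⟨D1, e1, f1⟩ := ih (n - m) (insert b ax) c ((b, true) :: h) h5
        (key (n - m) (by omega)) (hax_ins b hax) (List.mem_cons_of_mem _ hc)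
      refine ⟨DT.node b D0 D1, ?_, f0, f1⟩
      simp only [DT.depth]
      omega

theorem strat_pow {ax0 : Set α} {rule : α → α → α → Prop} {r n : ℕ} {c : α}
    {h : List (α × Bool)} (hT : TT ax0 rule c n) (hn : n ≤ 2 ^ r) (hc : (c, false) ∈ h) :
    ∃ D : DT α, D.depth ≤ 4 * r + 5 ∧ D.All (Bd ax0 rule) h := by
  refine strat (4 * r) n ax0 c h hT ?_ (fun b hb => Or.inl hb) hc
  have h1 : (n : ℝ) ≤ 2 ^ r := by exact_mod_cast hn
  have h2 : (2 : ℝ) ^ r ≤ ((5 / 4) ^ 4) ^ r := by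
    apply pow_le_pow_left₀ (by norm_num)
    norm_num
  rw [← pow_mul] at h2
  have h3 : (0 : ℝ) ≤ (5 / 4) ^ (4 * r) := by positivity
  linarith

theorem strat_ht {ax0 : Set α} {rule : α → α → α → Prop} {n : ℕ} {c : α}
    {h : List (α × Bool)} (hT : HT ax0 rule c n) (hc : (c, false) ∈ h) :
    ∃ D : DT α, D.depth ≤ 2 * n ∧ D.All (Bd ax0 rule) h := by
  induction hT generalizing h with
  | ax a n ha => exact ⟨DT.leaf, Nat.zero_le _, Or.inl ⟨a, ha, hc⟩⟩
  | mp a b c n _ _ h3 ih1 ih2 =>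
    obtain ⟨D0, e0, f0⟩ := ih1 (h := (a, false) :: h) List.mem_cons_self
    obtain ⟨D1, e1, f1⟩ := ih2 (h := (b, false) :: (a, true) :: h) List.mem_cons_self
    refine ⟨DT.node a D0 (DT.node b D1 DT.leaf), ?_, f0, f1, ?_⟩
    · simp only [DT.depth]
      omega
    · exact Or.inr (Or.inr ⟨a, b, c, h3, List.mem_cons_of_mem _ List.mem_cons_self,
        List.mem_cons_self, List.mem_cons_of_mem _ (List.mem_cons_of_mem _ hc)⟩)

end Pool.Agent.H81.QG
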