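import Mathlib
import Pool.Agent.H81.QG.Game
import Pool.Agent.H81.QG.Strat
import Pool.Agent.H81.QG.Bds

set_option autoImplicit false

/-!
# [H81 QG FINTR] Tree-like derivations and height: output of chapter (6)

Common: `10 * 100 ^ ℓ * η ≤ η'`, the hypotheses in `Γ` are true up to `η'` on degree `k'`, `α = Fs ι s`, `V' F = V F.1`; `V' a ∈ dg W` and idempotency with
`η ≤ η'` on degree `k'` (`Sml.mono`). The decision tree: with `a = ⟨A, _⟩`, `b = ⟨neg A, _⟩`: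
`T = node a D0 (node b D1 leaf)`, where `D0` is the strategy (`strat_pow`, resp. `strat_ht`) for
`a` with the history `[(a, false)]`, and `D1` that for `b` with the history `[(b, false), (a, true)]`;
the last leaf has the history `[(b, true), (a, true)]`, which is `Bad` with `c = {(a, true), (b, true)}`
(`a ≠ b` as `neg A` has larger `len`) by `neg_sml`. `DT.All` is monotone (`bad_of_bd` for the leaves of
`D0`, `D1`: induction on the tree). Depth `≤ (4 r + 5) + 2`, resp. `2 h + 2`. Then `game` with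
`r := 4 r + 7`, resp. `2 h + 2`, and degree `k'`.
-/

namespace Pool.Agent.H81.QG

open Finset Classical Pool.Agent.H3.Frg Pool.Agent.H3.Frg2

variable {R H ι : Type} [CommRing R] [Algebra ℝ R] [NormedAddCommGroup H] [InnerProductSpace ℝ H]
variable {cl : R →ₗ[ℝ] H} {dg : ℕ → Submodule ℝ R} {K : ℕ}

private theorem all_mono {α : Type} {Q Q' : List (α × Bool) → Prop} (hQ : ∀ h, Q h → Q' h)
    (T : DT α) (h : List (α × Bool)) (hT : T.All Q h) : T.All Q' h := by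
  induction T generalizing h with
  | leaf => exact hQ h hT
  | node a t0 t1 ih0 ih1 => exact ⟨ih0 _ hT.1, ih1 _ hT.2⟩

private theorem neg_ne (A : Fm ι) : A ≠ .neg A := by
  intro h
  have h1 := congrArg sizeOf h
  simp at h1

private theorem fin_gen (hL : Liar cl dg K) {V : Fm ι → R} {y : ι → R} {W s k ℓ d : ℕ} {η : ℝ}
    (hW : 1 ≤ W) (hV : VI cl dg V y W s k η) (hη : 0 ≤ η) (hK : k + 2 * W ≤ K)
    {Sch : Set (Fm ℕ)} {Γ : Set (Fm ι)} (hS : ∀ ψ ∈ Sch, ψ.len ≤ ℓ ∧ ∀ x, ψ.eval x = true)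
    {k' : ℕ} {η' : ℝ} (hkl : k' + (2 * ℓ + 2) * W ≤ k) (hη' : 10 * 100 ^ ℓ * η ≤ η')
    (hΓ : ∀ A ∈ Γ, A.leaves ≤ s → Sml cl dg k' η' (1 - V A))
    (hk2 : (d + 2) * W ≤ k')
    (hη2 : 10 * ((d : ℝ) + 3) ^ 2 * η' ≤ 1) {A : Fm ι} {a b : Fs ι s}
    (ha : a.1 = A) (hb : b.1 = .neg A) (D0 D1 : DT (Fs ι s)) (hd0 : D0.depth ≤ d)
    (hd1 : D1.depth ≤ d) (h0 : D0.All (Bd (axs Sch Γ s) (mpr s)) [(a, false)])
    (h1 : D1.All (Bd (axs Sch Γ s) (mpr s)) [(b, false), (a, true)]) : False := by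
  have hd : (0 : ℝ) ≤ d := Nat.cast_nonneg d
  have hp : (1 : ℝ) ≤ 100 ^ ℓ := one_le_pow₀ (by norm_num)
  have hη10 : 10 * η ≤ η' := by nlinarith
  have hη0' : 0 ≤ η' := by linarith
  have hη1 : η ≤ 1 := by
    have h2 : (1 : ℝ) ≤ 10 * ((d : ℝ) + 3) ^ 2 := by nlinarith
    have h3 : η' ≤ 10 * ((d : ℝ) + 3) ^ 2 * η' :=
      le_mul_of_one_le_left hη0' h2
    linarith
  have hkk : k' ≤ k := by omega
  have hbad := fun (h : List (Fs ι s × Bool)) (hB : Bd (axs Sch Γ s) (mpr s) h) =>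
    bad_of_bd hL hW hV hη hη1 hK hS (k' := k') hkl hη' hΓ hB
  have hne : a ≠ b := by
    intro h2
    apply neg_ne A
    rw [← hb, ← h2, ha]
  have hne' : (a, true) ≠ (b, true) := fun h2 => hne (congrArg Prod.fst h2)
  have hleaf : Bad cl dg (fun F : Fs ι s => V F.1) k' η' [(b, true), (a, true)] := by
    refine ⟨{(a, true), (b, true)}, (card_le_two).trans (by norm_num), ?_, ?_⟩
    · intro x hx
      rw [mem_insert, mem_singleton] at hx
      rcases hx with rfl | rfl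
      · simp
      · simp
    · rw [prod_pair hne']
      have h2 : fac (fun F : Fs ι s => V F.1) (a, true) * fac (fun F : Fs ι s => V F.1) (b, true) =
          V A * V (.neg A) := by
        rw [← hb, ← ha]
        rfl
      rw [h2]
      refine (neg_sml hL hV hη hη1 hK (A := A) ?_ (k' := k') ?_).mono hL le_rfl hη10
      · rw [← ha]
        exact a.2
      · have h3 : 1 * W ≤ (2 * ℓ + 2) * W := Nat.mul_le_mul_right W (by omega)
        omega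
  refine game hL (V := fun F : Fs ι s => V F.1) (W := W) (k := k') (r := d + 2)
    (η := η') (fun F => hV.deg F.1 F.2)
    (fun F => (hV.idem F.1 F.2).mono hL hkk (by linarith)) hη0' ?_ hk2 (by omega)
    (.node a D0 (.node b D1 .leaf)) ?_ ?_
  · push_cast
    have h2 : (d : ℝ) + 2 + 1 = d + 3 := by ring
    rw [h2]
    exact hη2
  · show max D0.depth (max D1.depth 0 + 1) + 1 ≤ d + 2
    omega
  · exact ⟨all_mono hbad D0 _ h0, all_mono hbad D1 _ h1, hleaf⟩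

theorem fin_tree (hL : Liar cl dg K) {V : Fm ι → R} {y : ι → R} {W s k ℓ r : ℕ} {η : ℝ}
    (hW : 1 ≤ W) (hV : VI cl dg V y W s k η) (hη : 0 ≤ η) (hK : k + 2 * W ≤ K)
    {Sch : Set (Fm ℕ)} {Γ : Set (Fm ι)} (hS : ∀ ψ ∈ Sch, ψ.len ≤ ℓ ∧ ∀ x, ψ.eval x = true)
    {k' : ℕ} {η' : ℝ} (hkl : k' + (2 * ℓ + 2) * W ≤ k) (hη' : 10 * 100 ^ ℓ * η ≤ η')
    (hΓ : ∀ A ∈ Γ, A.leaves ≤ s → Sml cl dg k' η' (1 - V A))
    (hk : (4 * r + 7) * W ≤ k')
    (hη2 : 10 * (4 * (r : ℝ) + 8) ^ 2 * η' ≤ 1) {A : Fm ι} {N N' : ℕ}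
    (hA : TD Sch Γ s N A) (hA' : TD Sch Γ s N' (.neg A)) (hN : N ≤ 2 ^ r) (hN' : N' ≤ 2 ^ r) :
    False := by
  obtain ⟨n, hn, hT⟩ := td_tt hA
  obtain ⟨n', hn', hT'⟩ := td_tt hA'
  obtain ⟨D0, hd0, h0⟩ := strat_pow (h := [((⟨A, hA.leaves⟩ : Fs ι s), false)]) hT
    (hn.trans hN) (by simp)
  obtain ⟨D1, hd1, h1⟩ := strat_pow
    (h := [((⟨.neg A, hA'.leaves⟩ : Fs ι s), false), ((⟨A, hA.leaves⟩ : Fs ι s), true)]) hT'
    (hn'.trans hN') (by simp)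
  refine fin_gen hL hW hV hη hK hS hkl hη' hΓ (d := 4 * r + 5) hk ?_ rfl rfl D0 D1 hd0 hd1 h0 h1
  · push_cast
    have h2 : 4 * (r : ℝ) + 5 + 3 = 4 * r + 8 := by ring
    rw [h2]
    exact hη2

theorem fin_height (hL : Liar cl dg K) {V : Fm ι → R} {y : ι → R} {W s k ℓ h : ℕ} {η : ℝ}
    (hW : 1 ≤ W) (hV : VI cl dg V y W s k η) (hη : 0 ≤ η) (hK : k + 2 * W ≤ K)
    {Sch : Set (Fm ℕ)} {Γ : Set (Fm ι)} (hS : ∀ ψ ∈ Sch, ψ.len ≤ ℓ ∧ ∀ x, ψ.eval x = true)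
    {k' : ℕ} {η' : ℝ} (hkl : k' + (2 * ℓ + 2) * W ≤ k) (hη' : 10 * 100 ^ ℓ * η ≤ η')
    (hΓ : ∀ A ∈ Γ, A.leaves ≤ s → Sml cl dg k' η' (1 - V A))
    (hk : (2 * h + 2) * W ≤ k')
    (hη2 : 10 * (2 * (h : ℝ) + 3) ^ 2 * η' ≤ 1) {A : Fm ι}
    (hA : HD Sch Γ s h A) (hA' : HD Sch Γ s h (.neg A)) : False := by
  obtain ⟨D0, hd0, h0⟩ := strat_ht (h := [((⟨A, hA.leaves⟩ : Fs ι s), false)]) (hd_ht hA) (by simp)
  obtain ⟨D1, hd1, h1⟩ := strat_ht
    (h := [((⟨.neg A, hA'.leaves⟩ : Fs ι s), false), ((⟨A, hA.leaves⟩ : Fs ι s), true)])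
    (hd_ht hA') (by simp)
  refine fin_gen hL hW hV hη hK hS hkl hη' hΓ (d := 2 * h) hk ?_ rfl rfl D0 D1 hd0 hd1 h0 h1
  push_cast
  exact hη2

end Pool.Agent.H81.QG
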