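import Mathlib
import Pool.Agent.H81.QG.Chain
import Pool.Agent.H81.QG.Glue

set_option autoImplicit false

/-!
# [H81 QG FINTOT] Total size: output of chapter (6)

`10 * 100 ^ ℓ * η ≤ η'`, the hypotheses in `Γ` are true up to `η'` on degree `k' ≥ 8 W`. `chain` with `n = L`, `l i = V (pf i)`,
`c i = V (C i)`, `C 0 = pf 0`, `C (i+1) = neg (imp (C i) (neg (pf (i+1))))` (for `i ≥ L` anything, e.g. use
`pf` extended by `pf 0`); `(C i).leaves = ∑ j ≤ i, (pf j).leaves ≤ s`. `c0`: `0`; `cs`: `and_sml`;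
`rule`: `hpf i`: a hypothesis: `ax_sml`, an instance: `inst_sml`, modus ponens `pf b = imp (pf a) (pf i)`:
`mp_sml`; `fin`: `neg_sml` for `pf i = neg (pf j)`. `L > 0` by `hc`. `η ≤ 1` from `hη2`.
Apply `chain` for `η'` and `k'`; `k' + 2 W ≤ K`.
-/

namespace Pool.Agent.H81.QG

open Finset Classical Pool.Agent.H3.Frg Pool.Agent.H3.Frg2 Pool.Agent.H3.Frg4

variable {R H ι : Type} [CommRing R] [Algebra ℝ R] [NormedAddCommGroup H] [InnerProductSpace ℝ H]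
variable {cl : R →ₗ[ℝ] H} {dg : ℕ → Submodule ℝ R} {K : ℕ}

/-- the conjunction of the lines `0, .., i` -/
private def cj (g : ℕ → Fm ι) : ℕ → Fm ι
  | 0 => g 0
  | i + 1 => .neg (.imp (cj g i) (.neg (g (i + 1))))

private theorem cj_leaves (g : ℕ → Fm ι) (i : ℕ) :
    (cj g i).leaves = ∑ j ∈ Finset.range (i + 1), (g j).leaves := by
  induction i with
  | zero => simp [cj]
  | succ i ih =>
    rw [Finset.sum_range_succ, ← ih]
    rfl

theorem fin_total (hL : Liar cl dg K) {V : Fm ι → R} {y : ι → R} {W s k ℓ L : ℕ} {η : ℝ}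
    (hW : 1 ≤ W) (hV : VI cl dg V y W s k η) (hη : 0 ≤ η) (hK : k + 2 * W ≤ K)
    {Sch : Set (Fm ℕ)} {Γ : Set (Fm ι)} (hS : ∀ ψ ∈ Sch, ψ.len ≤ ℓ ∧ ∀ x, ψ.eval x = true)
    {k' : ℕ} {η' : ℝ} (hkl : k' + (2 * ℓ + 2) * W ≤ k) (hη' : 10 * 100 ^ ℓ * η ≤ η')
    (hΓ : ∀ A ∈ Γ, A.leaves ≤ s → Sml cl dg k' η' (1 - V A))
    (hk : 8 * W ≤ k') (hη2 : 1000 * (L : ℝ) ^ 2 * η' ≤ 1)
    {pf : Fin L → Fm ι} (hpf : IsDer Sch Γ pf) (hc : ∃ i j, pf i = .neg (pf j))
    (hs : ∑ i, (pf i).leaves ≤ s) : False := by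
  obtain ⟨i0, j0, hij⟩ := hc
  have hL0 : 0 < L := lt_of_le_of_lt (Nat.zero_le _) i0.2
  have h100 : (1 : ℝ) ≤ 100 ^ ℓ := one_le_pow₀ (by norm_num)
  have hη10 : 10 * η ≤ η' := by nlinarith
  have hη1' : η ≤ η' := by linarith
  have hη0' : 0 ≤ η' := hη.trans hη1'
  have hη1 : η ≤ 1 := by
    have h1 : (1 : ℝ) ≤ (L : ℝ) ^ 2 := by
      have h2 : (1 : ℝ) ≤ (L : ℝ) := by exact_mod_cast hL0
      nlinarith
    have h3 : 1000 * 1 * η' ≤ 1000 * (L : ℝ) ^ 2 * η' :=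
      mul_le_mul_of_nonneg_right (mul_le_mul_of_nonneg_left h1 (by norm_num)) hη0'
    linarith
  obtain ⟨g, hg⟩ : ∃ g : ℕ → Fm ι, ∀ i (h : i < L), g i = pf ⟨i, h⟩ :=
    ⟨fun i => if h : i < L then pf ⟨i, h⟩ else pf i0, fun i h => dif_pos h⟩
  have hsum : ∑ j ∈ Finset.range L, (g j).leaves ≤ s := by
    rw [Finset.sum_range]
    refine le_trans (le_of_eq ?_) hs
    exact Finset.sum_congr rfl fun i _ => by rw [hg i.1 i.2]
  have hgl : ∀ i < L, (g i).leaves ≤ s := fun i hi =>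
    (Finset.single_le_sum (f := fun j => (g j).leaves) (fun _ _ => Nat.zero_le _)
      (Finset.mem_range.2 hi)).trans hsum
  have hcl : ∀ i < L, (cj g i).leaves ≤ s := by
    intro i hi
    rw [cj_leaves]
    refine (Finset.sum_le_sum_of_subset ?_).trans hsum
    intro j hj
    rw [Finset.mem_range] at hj ⊢
    omega
  have hlen : ∀ a : ℕ, a ≤ ℓ → 100 ^ a * η ≤ η' := by
    intro a ha
    have h1 : (100 : ℝ) ^ a ≤ 100 ^ ℓ := pow_le_pow_right₀ (by norm_num) ha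
    have h2 : (100 : ℝ) ^ a * η ≤ 100 ^ ℓ * η := mul_le_mul_of_nonneg_right h1 hη
    have h3 : 0 ≤ (100 : ℝ) ^ ℓ * η := by positivity
    nlinarith
  refine chain hL (n := L) (W := W) (k := k') (η := η') (l := fun i => V (g i))
    (c := fun i => V (cj g i)) hL0 (fun i hi => hV.deg _ (hgl i hi)) (fun i hi => hV.deg _ (hcl i hi))
    (fun i hi => (hV.idem _ (hgl i hi)).mono hL (by omega) hη1')
    (fun i hi => (hV.idem _ (hcl i hi)).mono hL (by omega) hη1') ?_ ?_ ?_ ?_ hk (by omega) hη0' hη2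
  · change Sml cl dg k' η' (V (g 0) - V (g 0))
    rw [sub_self]
    exact Sml.zero hη0'
  · intro i hi
    have h1 : (cj g i).leaves + (g (i + 1)).leaves ≤ s := by
      have h2 := hcl (i + 1) hi
      rw [cj_leaves, Finset.sum_range_succ, ← cj_leaves] at h2
      exact h2
    have h3 : k' + W ≤ k := by
      have h4 : (2 * ℓ + 2) * W = 2 * ℓ * W + 2 * W := by ring
      omega
    exact (and_sml hL hV hη hη1 hK h1 h3).mono hL le_rfl hη10
  · intro i hi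
    rcases hpf ⟨i, hi⟩ with h1 | ⟨ψ, hψ, σ, h1⟩ | ⟨a, b, ha, hb, h1⟩
    · left
      rw [hg i hi]
      exact hΓ _ h1 (by rw [← hg i hi]; exact hgl i hi)
    · left
      obtain ⟨h2, h3⟩ := hS ψ hψ
      have h4 : k' + 2 * ψ.len * W ≤ k := by
        have h5 : 2 * ψ.len * W ≤ (2 * ℓ + 2) * W := Nat.mul_le_mul_right _ (by omega)
        omega
      have h6 := inst_sml hL hV hη hη1 hK ψ σ h3 (by rw [← h1, ← hg i hi]; exact hgl i hi) h4
      rw [hg i hi, h1]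
      exact h6.mono hL le_rfl (hlen _ h2)
    · right
      refine ⟨a, b, ha, hb, ?_⟩
      have h2 : ((pf a).imp (pf ⟨i, hi⟩)).leaves ≤ s := by
        rw [← h1, ← hg b.1 b.2]
        exact hgl b.1 b.2
      have h3 : k' + 2 * W ≤ k := by
        have h4 : (2 * ℓ + 2) * W = 2 * ℓ * W + 2 * W := by ring
        omega
      have h6 := mp_sml hL hV hη hη1 hK h2 h3
      rw [← h1] at h6
      rw [hg i hi, hg a.1 a.2, hg b.1 b.2]
      exact h6.mono hL le_rfl hη10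
  · refine ⟨j0, i0, j0.2, i0.2, ?_⟩
    have h3 : k' + W ≤ k := by
      have h4 : (2 * ℓ + 2) * W = 2 * ℓ * W + 2 * W := by ring
      omega
    have h6 := neg_sml hL hV hη hη1 hK (A := pf j0) (by rw [← hg j0.1 j0.2]; exact hgl j0.1 j0.2) h3
    rw [← hij] at h6
    rw [hg j0.1 j0.2, hg i0.1 i0.2]
    exact h6.mono hL le_rfl hη10

end Pool.Agent.H81.QG
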